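import Mathlib

/-!
# Definitions for MP_7d6803_gt

Hyperbolic three-space with the action of `PSL(2, ℂ)`, cocompact Kleinian groups, the
pseudo-Riemannian hyperbolic space `H^{N,N-1}_+`, its isometry group `O(N,N)` and properly
discontinuous isometric actions.
-/

open Matrix
open scoped ComplexOrder MatrixGroups

namespace Pool.Agent.Lib.MP_7d6803_gt

/-- Hyperbolic three-space `H³`, in the model of positive definite Hermitian complex `2 × 2`
matrices of determinant one (the upper sheet of the unit hyperboloid of the Minkowski space of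
Hermitian `2 × 2` matrices with quadratic form `-det`). -/
def Hyp3 : Type := {h : Matrix (Fin 2) (Fin 2) ℂ // h.PosDef ∧ h.det = 1}

/-- The subspace topology. -/
noncomputable instance : TopologicalSpace Hyp3 := instTopologicalSpaceSubtype

theorem act_mem (A : SL(2, ℂ)) (h : Hyp3) :
    (A.1 * h.1 * A.1ᴴ).PosDef ∧ (A.1 * h.1 * A.1ᴴ).det = 1 :=
  ⟨h.2.1.mul_mul_conjTranspose_same
      (Matrix.vecMul_injective_iff_isUnit.2 ((Matrix.isUnit_iff_isUnit_det _).2 (by
        rw [A.2]; exact isUnit_one))),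
    by rw [det_mul, det_mul, det_conjTranspose, A.2, h.2.2]; simp⟩

/-- The action of `SL(2, ℂ)` on `H³` by isometries: `A • h = A h A*`. -/
def act (A : SL(2, ℂ)) (h : Hyp3) : Hyp3 := ⟨A.1 * h.1 * A.1ᴴ, act_mem A h⟩

theorem one_act (h : Hyp3) : act 1 h = h := Subtype.ext (by
    change (1 : SL(2, ℂ)).1 * h.1 * ((1 : SL(2, ℂ)).1)ᴴ = h.1
    simp)

theorem mul_act (A B : SL(2, ℂ)) (h : Hyp3) : act (A * B) h = act A (act B h) := Subtype.ext (by
    change (A * B).1 * h.1 * ((A * B).1)ᴴ = A.1 * (B.1 * h.1 * B.1ᴴ) * A.1ᴴ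
    rw [Matrix.SpecialLinearGroup.coe_mul, conjTranspose_mul]
    simp only [mul_assoc])

/-- `SL(2, ℂ)` acts on `H³` by isometries: `A • h = A h A*`. -/
instance : MulAction SL(2, ℂ) Hyp3 where
  smul := act
  one_smul := one_act
  mul_smul := mul_act

theorem smul_val (A : SL(2, ℂ)) (h : Hyp3) : (A • h).1 = A.1 * h.1 * A.1ᴴ := rfl

/-- The centre of `SL(2, ℂ)` acts trivially on `H³`. -/
theorem center_le_ker : Subgroup.center SL(2, ℂ) ≤ (MulAction.toPermHom SL(2, ℂ) Hyp3).ker := by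
  intro A hA
  rw [MonoidHom.mem_ker]
  ext1 h
  obtain ⟨r, hr, hA⟩ := Matrix.SpecialLinearGroup.mem_center_iff.1 hA
  rw [Fintype.card_fin] at hr
  apply Subtype.ext
  rw [Equiv.Perm.one_apply, MulAction.toPermHom_apply, MulAction.toPerm_apply, smul_val, ← hA]
  have hr2 : r * star r = 1 := by
    have h1 : r = 1 ∨ r = -1 := mul_self_eq_one_iff.1 (by rw [← pow_two]; exact hr)
    rcases h1 with h1 | h1 <;> rw [h1] <;> simp
  simp only [scalar_apply, diagonal_conjTranspose]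
  ext i j
  simp only [mul_diagonal, diagonal_mul, Pi.star_apply]
  calc r * h.1 i j * star r = (r * star r) * h.1 i j := by ring
    _ = h.1 i j := by rw [hr2, one_mul]

/-- The topological group `PSL(2, ℂ) = SL(2, ℂ) / centre`. -/
def PSL2C : Type := PSL(2, ℂ)

/-- The quotient group structure. -/
instance : Group PSL2C := QuotientGroup.Quotient.group (Subgroup.center SL(2, ℂ))

/-- The quotient topology. -/
noncomputable instance : TopologicalSpace PSL2C :=
  QuotientGroup.instTopologicalSpace (Subgroup.center SL(2, ℂ))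

/-- The homomorphism `PSL(2, ℂ) → Perm(H³)` induced by the action of `SL(2, ℂ)`. -/
def actHom : PSL2C →* Equiv.Perm Hyp3 :=
  QuotientGroup.lift (Subgroup.center SL(2, ℂ)) (MulAction.toPermHom SL(2, ℂ) Hyp3) center_le_ker

/-- The induced action of `PSL(2, ℂ)` on `H³`. -/
instance : MulAction PSL2C Hyp3 := MulAction.compHom Hyp3 actHom

/-- A cocompact Kleinian group: a discrete subgroup `Γ` of `PSL(2, ℂ)` such that the quotient
space `Γ \ H³` is compact. -/
def IsCocompactKleinian (Γ : Subgroup PSL2C) : Prop :=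
  DiscreteTopology Γ ∧ CompactSpace (Quotient (MulAction.orbitRel Γ Hyp3))

/-- The quadratic form `x_1² + ⋯ + x_N² - x_{N+1}² - ⋯ - x_{2N}²` on `ℝ^{2N}`. -/
def quad (N : ℕ) (x : Fin N ⊕ Fin N → ℝ) : ℝ :=
  ∑ i, x (Sum.inl i) ^ 2 - ∑ i, x (Sum.inr i) ^ 2

/-- The space `H^{N,N-1}_+ = {x ∈ ℝ^{2N} : x_1² + ⋯ + x_N² - x_{N+1}² - ⋯ - x_{2N}² = -1}`. -/
def HypNN (N : ℕ) : Set (Fin N ⊕ Fin N → ℝ) := {x | quad N x = -1}

theorem quad_mul {N : ℕ} {g g' : GL (Fin N ⊕ Fin N) ℝ}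
    (hg : ∀ x, quad N (g.1 *ᵥ x) = quad N x) (hg' : ∀ x, quad N (g'.1 *ᵥ x) = quad N x)
    (x : Fin N ⊕ Fin N → ℝ) : quad N ((g * g').1 *ᵥ x) = quad N x := by
  rw [Units.val_mul, ← mulVec_mulVec, hg, hg']

theorem quad_one {N : ℕ} (x : Fin N ⊕ Fin N → ℝ) :
    quad N ((1 : GL (Fin N ⊕ Fin N) ℝ).1 *ᵥ x) = quad N x := by
  rw [Units.val_one, one_mulVec]

theorem quad_inv {N : ℕ} {g : GL (Fin N ⊕ Fin N) ℝ}
    (hg : ∀ x, quad N (g.1 *ᵥ x) = quad N x) (x : Fin N ⊕ Fin N → ℝ) :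
    quad N (g⁻¹.1 *ᵥ x) = quad N x := by
  have h := hg (g⁻¹.1 *ᵥ x)
  rw [mulVec_mulVec, ← Units.val_mul, mul_inv_cancel, Units.val_one, one_mulVec] at h
  exact h.symm

/-- The group `O(N,N)`: the invertible real `2N × 2N` matrices preserving the quadratic form. -/
def subONN (N : ℕ) : Subgroup (GL (Fin N ⊕ Fin N) ℝ) where
  carrier := {g | ∀ x, quad N (g.1 *ᵥ x) = quad N x}
  mul_mem' := quad_mul
  one_mem' := quad_one
  inv_mem' := quad_inv

/-- The group `O(N,N)`. -/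
def ONN (N : ℕ) : Type := subONN N

/-- The group structure of `O(N,N)`, as a subgroup of `GL(2N, ℝ)`. -/
instance (N : ℕ) : Group (ONN N) := Subgroup.toGroup (subONN N)

/-- The matrix of an element of `O(N,N)`. -/
def ONN.mat {N : ℕ} (g : ONN N) : Matrix (Fin N ⊕ Fin N) (Fin N ⊕ Fin N) ℝ := g.1.1

/-- The action of `O(N,N)` on `ℝ^{2N}`, which preserves `H^{N,N-1}_+`. -/
def ONN.act {N : ℕ} (g : ONN N) (x : Fin N ⊕ Fin N → ℝ) : Fin N ⊕ Fin N → ℝ := g.mat *ᵥ x

/-- The isometric action of a group `Γ` on `H^{N,N-1}_+` given by a homomorphism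
`φ : Γ → O(N,N)` is properly discontinuous: for every compact `K ⊆ H^{N,N-1}_+` the set
`{γ ∈ Γ : φ(γ) K ∩ K ≠ ∅}` is finite. -/
def IsProperlyDiscontinuous (N : ℕ) {Γ : Type} [Group Γ] (φ : Γ →* ONN N) : Prop :=
  ∀ K : Set (Fin N ⊕ Fin N → ℝ), K ⊆ HypNN N → IsCompact K →
    {γ : Γ | (((φ γ).act '' K) ∩ K).Nonempty}.Finite

end Pool.Agent.Lib.MP_7d6803_gt
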