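import Mathlib
import Pool.Agent.Lib.MP_7d6803_gt.Defs

/-!
# Negative definite planes as graphs of contractions, and convexity of cones
-/

open Matrix

namespace Pool.Agent.Lib.MP_7d6803_gt

variable {N : ℕ}

/-- The modified form `|u|² - τ |v|²`. -/
def qt (τ : ℝ) (x : Fin N ⊕ Fin N → ℝ) : ℝ :=
  ∑ i, x (Sum.inl i) ^ 2 - τ * ∑ i, x (Sum.inr i) ^ 2

theorem quad_eq_qt (x : Fin N ⊕ Fin N → ℝ) : quad N x = qt 1 x := by
  simp [quad, qt]

theorem sum_inl_nonneg (x : Fin N ⊕ Fin N → ℝ) : 0 ≤ ∑ i, x (Sum.inl i) ^ 2 :=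
  Finset.sum_nonneg fun _ _ => sq_nonneg _

theorem sum_inr_nonneg (x : Fin N ⊕ Fin N → ℝ) : 0 ≤ ∑ i, x (Sum.inr i) ^ 2 :=
  Finset.sum_nonneg fun _ _ => sq_nonneg _

theorem continuous_qt (τ : ℝ) : Continuous (qt τ : (Fin N ⊕ Fin N → ℝ) → ℝ) := by
  unfold qt
  fun_prop

theorem qt_comb (τ a b : ℝ) (hab : a + b = 1) (x y : Fin N ⊕ Fin N → ℝ) :
    qt τ (a • x + b • y) = a * qt τ x + b * qt τ y - a * b * qt τ (x - y) := by
  have hb : b = 1 - a := by linarith
  subst hb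
  have key : ∀ f g : Fin N → ℝ, ∑ i, (a * f i + (1 - a) * g i) ^ 2 =
      a * ∑ i, f i ^ 2 + (1 - a) * ∑ i, g i ^ 2 - a * (1 - a) * ∑ i, (f i - g i) ^ 2 := by
    intro f g
    rw [Finset.mul_sum, Finset.mul_sum, Finset.mul_sum, ← Finset.sum_add_distrib,
      ← Finset.sum_sub_distrib]
    refine Finset.sum_congr rfl fun i _ => ?_
    ring
  simp only [qt, Pi.add_apply, Pi.smul_apply, Pi.sub_apply, smul_eq_mul]
  rw [key, key]
  ring

theorem qt_smul (τ c : ℝ) (x : Fin N ⊕ Fin N → ℝ) : qt τ (c • x) = c ^ 2 * qt τ x := by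
  simp only [qt, Pi.smul_apply, smul_eq_mul, mul_pow, ← Finset.mul_sum]
  ring

theorem elim_zero_left_quad (w : Fin N → ℝ) :
    quad N (Sum.elim 0 w) = - ∑ i, w i ^ 2 := by
  simp [quad]

theorem elim_zero_right_quad (w : Fin N → ℝ) :
    quad N (Sum.elim w 0) = ∑ i, w i ^ 2 := by
  simp [quad]

theorem eq_zero_of_sum_sq {w : Fin N → ℝ} (h : ∑ i, w i ^ 2 ≤ 0) : w = 0 := by
  funext i
  have h1 : ∑ i, w i ^ 2 = 0 := le_antisymm h (Finset.sum_nonneg fun _ _ => sq_nonneg _)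
  have h2 := (Finset.sum_eq_zero_iff_of_nonneg (fun i _ => sq_nonneg (w i))).1 h1 i
    (Finset.mem_univ i)
  exact pow_eq_zero_iff (two_ne_zero) |>.1 h2

/-- The linear inclusion of the negative definite coordinate plane. -/
def incl (N : ℕ) : (Fin N → ℝ) →ₗ[ℝ] (Fin N ⊕ Fin N → ℝ) where
  toFun w := Sum.elim 0 w
  map_add' w w' := by
    funext i
    rcases i with i | i <;> simp
  map_smul' c w := by
    funext i
    rcases i with i | i <;> simp

/-- Elements of `O(N,N)` as linear maps. -/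
noncomputable def ONN.lin (g : ONN N) : (Fin N ⊕ Fin N → ℝ) →ₗ[ℝ] (Fin N ⊕ Fin N → ℝ) :=
  Matrix.mulVecLin g.mat

theorem act_eq_lin (g : ONN N) (x : Fin N ⊕ Fin N → ℝ) : g.act x = g.lin x := rfl

theorem quad_act (g : ONN N) (x : Fin N ⊕ Fin N → ℝ) : quad N (g.act x) = quad N x := g.2 x

theorem mul_act' (g g' : ONN N) (x : Fin N ⊕ Fin N → ℝ) : (g * g').act x = g.act (g'.act x) :=
  (mulVec_mulVec x g.mat g'.mat).symm

theorem one_act' (x : Fin N ⊕ Fin N → ℝ) : (1 : ONN N).act x = x := one_mulVec x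

theorem inv_act_act (g : ONN N) (x : Fin N ⊕ Fin N → ℝ) : g⁻¹.act (g.act x) = x := by
  rw [← mul_act', inv_mul_cancel, one_act']

theorem act_inv_act (g : ONN N) (x : Fin N ⊕ Fin N → ℝ) : g.act (g⁻¹.act x) = x := by
  rw [← mul_act', mul_inv_cancel, one_act']

theorem act_smul' (g : ONN N) (c : ℝ) (x : Fin N ⊕ Fin N → ℝ) :
    g.act (c • x) = c • g.act x := by
  rw [act_eq_lin, act_eq_lin, map_smul]

theorem act_add' (g : ONN N) (x y : Fin N ⊕ Fin N → ℝ) :
    g.act (x + y) = g.act x + g.act y := by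
  rw [act_eq_lin, act_eq_lin, act_eq_lin, map_add]

theorem act_sub' (g : ONN N) (x y : Fin N ⊕ Fin N → ℝ) :
    g.act (x - y) = g.act x - g.act y := by
  rw [act_eq_lin, act_eq_lin, act_eq_lin, map_sub]

/-- The image of the negative definite coordinate plane under an element of `O(N,N)` is the graph
of a linear map. -/
theorem exists_graph (g : ONN N) : ∃ T : Matrix (Fin N) (Fin N) ℝ, ∀ v : Fin N → ℝ,
    ∃ w : Fin N → ℝ, g.act (Sum.elim 0 w) = Sum.elim (T *ᵥ v) v := by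
  let B : (Fin N → ℝ) →ₗ[ℝ] (Fin N → ℝ) :=
    (LinearMap.funLeft ℝ ℝ (Sum.inl : Fin N → Fin N ⊕ Fin N)) ∘ₗ g.lin ∘ₗ incl N
  let D : (Fin N → ℝ) →ₗ[ℝ] (Fin N → ℝ) :=
    (LinearMap.funLeft ℝ ℝ (Sum.inr : Fin N → Fin N ⊕ Fin N)) ∘ₗ g.lin ∘ₗ incl N
  have hB : ∀ w i, B w i = g.act (Sum.elim 0 w) (Sum.inl i) := fun w i => rfl
  have hD : ∀ w i, D w i = g.act (Sum.elim 0 w) (Sum.inr i) := fun w i => rfl
  have hinj : Function.Injective D := by
    rw [injective_iff_map_eq_zero]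
    intro w hw
    apply eq_zero_of_sum_sq
    have h1 := quad_act g (Sum.elim 0 w)
    rw [elim_zero_left_quad] at h1
    have h2 : ∑ i, g.act (Sum.elim 0 w) (Sum.inr i) ^ 2 = 0 := by
      refine Finset.sum_eq_zero fun i _ => ?_
      rw [← hD, hw]
      simp
    unfold quad at h1
    rw [h2] at h1
    have h3 := sum_inl_nonneg (g.act (Sum.elim 0 w))
    linarith
  let E := LinearEquiv.ofInjectiveEndo D hinj
  refine ⟨LinearMap.toMatrix' (B ∘ₗ E.symm.toLinearMap), fun v => ⟨E.symm v, ?_⟩⟩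
  funext i
  rcases i with i | i
  · rw [← hB]
    simp [LinearMap.toMatrix'_mulVec]
  · rw [← hD]
    have : E (E.symm v) = v := LinearEquiv.apply_symm_apply E v
    have h2 : D (E.symm v) = v := this
    rw [h2]
    simp

/-- The negative definite plane of `g` lies in a strict cone. -/
theorem exists_cone (g : ONN N) : ∃ τ : ℝ, 0 ≤ τ ∧ τ < 1 ∧
    ∀ w : Fin N → ℝ, qt τ (g.act (Sum.elim 0 w)) ≤ 0 := by
  let B : (Fin N → ℝ) →ₗ[ℝ] (Fin N → ℝ) :=
    (LinearMap.funLeft ℝ ℝ (Sum.inl : Fin N → Fin N ⊕ Fin N)) ∘ₗ g.lin ∘ₗ incl N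
  have hB : ∀ w i, B w i = g.act (Sum.elim 0 w) (Sum.inl i) := fun w i => rfl
  set M : ℝ := ∑ i, ∑ j, (LinearMap.toMatrix' B i j) ^ 2 with hM
  have hM0 : 0 ≤ M := Finset.sum_nonneg fun _ _ => Finset.sum_nonneg fun _ _ => sq_nonneg _
  have hbound : ∀ w : Fin N → ℝ, ∑ i, (B w i) ^ 2 ≤ M * ∑ i, w i ^ 2 := by
    intro w
    rw [hM, Finset.sum_mul]
    refine Finset.sum_le_sum fun i _ => ?_
    have h1 : B w i = ∑ j, LinearMap.toMatrix' B i j * w j := by
      have := congrFun (LinearMap.toMatrix'_mulVec B w) i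
      rw [← this]
      rfl
    rw [h1]
    exact Finset.sum_mul_sq_le_sq_mul_sq _ _ _
  refine ⟨M / (1 + M), by positivity, by rw [div_lt_one (by linarith)]; linarith, fun w => ?_⟩
  have h1 := quad_act g (Sum.elim 0 w)
  rw [elim_zero_left_quad] at h1
  have h2 := hbound w
  simp only [hB] at h2
  unfold quad at h1
  unfold qt
  have h3 : ∑ i, g.act (Sum.elim 0 w) (Sum.inr i) ^ 2 =
      ∑ i, g.act (Sum.elim 0 w) (Sum.inl i) ^ 2 + ∑ i, w i ^ 2 := by linarith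
  rw [h3, sub_nonpos]
  rw [div_mul_eq_mul_div, le_div_iff₀ (by linarith)]
  nlinarith

theorem qt_mono {τ τ' : ℝ} (h : τ ≤ τ') (x : Fin N ⊕ Fin N → ℝ) : qt τ' x ≤ qt τ x := by
  unfold qt
  have := mul_le_mul_of_nonneg_right h (sum_inr_nonneg x)
  linarith

theorem exists_cone_finite {Γ : Type*} [Group Γ] (φ : Γ →* ONN N) (F : Set Γ) (hF : F.Finite) :
    ∃ τ : ℝ, 0 ≤ τ ∧ τ < 1 ∧
    ∀ γ ∈ F, ∀ w : Fin N → ℝ, qt τ ((φ γ).act (Sum.elim 0 w)) ≤ 0 := by
  induction F, hF using Set.Finite.induction_on with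
  | empty => exact ⟨0, le_rfl, one_pos, fun γ hγ => absurd hγ (Set.notMem_empty γ)⟩
  | @insert a s _ _ ih =>
    obtain ⟨τ, h0, h1, h2⟩ := ih
    obtain ⟨τ', h0', h1', h2'⟩ := exists_cone (φ a)
    refine ⟨max τ τ', le_max_of_le_left h0, max_lt h1 h1', fun γ hγ w => ?_⟩
    rcases hγ with rfl | hγ
    · exact (qt_mono (le_max_right _ _) _).trans (h2' w)
    · exact (qt_mono (le_max_left _ _) _).trans (h2 γ hγ w)

/-- Convexity of the cone condition along graphs. -/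
theorem convex_cone (g : ONN N) {τ : ℝ} (hτ : τ ≤ 1) (v : Fin N → ℝ) :
    ConvexOn ℝ Set.univ (fun u : Fin N → ℝ => qt τ (g.act (Sum.elim u v))) := by
  refine ⟨convex_univ, fun u _ u' _ a b ha hb hab => ?_⟩
  have h1 : (Sum.elim (a • u + b • u') v : Fin N ⊕ Fin N → ℝ) =
      a • Sum.elim u v + b • Sum.elim u' v := by
    funext i
    rcases i with i | i
    · simp
    · simp [← add_mul, hab]
  have h2 : (Sum.elim u v - Sum.elim u' v : Fin N ⊕ Fin N → ℝ) = Sum.elim (u - u') 0 := by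
    funext i
    rcases i with i | i <;> simp
  have h3 : 0 ≤ qt τ (g.act (Sum.elim (u - u') 0)) := by
    refine le_trans ?_ (qt_mono hτ _)
    rw [← quad_eq_qt, quad_act, elim_zero_right_quad]
    exact Finset.sum_nonneg fun _ _ => sq_nonneg _
  change qt τ (g.act (Sum.elim (a • u + b • u') v)) ≤ a • qt τ (g.act (Sum.elim u v)) +
    b • qt τ (g.act (Sum.elim u' v))
  rw [h1, act_add', act_smul', act_smul', qt_comb τ a b hab, ← act_sub', h2, smul_eq_mul, smul_eq_mul]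
  have := mul_nonneg (mul_nonneg ha hb) h3
  linarith

/-- Jensen's inequality for the cone condition. -/
theorem cone_average {κ : Type*} (s : Finset κ) (c : κ → ℝ) (T : κ → Matrix (Fin N) (Fin N) ℝ)
    (hc : ∀ k ∈ s, 0 ≤ c k) (hsum : ∑ k ∈ s, c k = 1) (g : ONN N) {τ : ℝ} (hτ : τ ≤ 1)
    (v : Fin N → ℝ) (h : ∀ k ∈ s, c k ≠ 0 → qt τ (g.act (Sum.elim (T k *ᵥ v) v)) ≤ 0) :
    qt τ (g.act (Sum.elim ((∑ k ∈ s, c k • T k) *ᵥ v) v)) ≤ 0 := by
  have h1 := (convex_cone g hτ v).map_sum_le hc hsum (fun k _ => Set.mem_univ (T k *ᵥ v))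
  have h2 : (∑ k ∈ s, c k • T k) *ᵥ v = ∑ k ∈ s, c k • (T k *ᵥ v) := by
    rw [Matrix.sum_mulVec]
    refine Finset.sum_congr rfl fun k _ => ?_
    rw [smul_mulVec]
  rw [h2]
  refine h1.trans (Finset.sum_nonpos fun k hk => ?_)
  by_cases hk0 : c k = 0
  · simp [hk0]
  · exact mul_nonpos_of_nonneg_of_nonpos (hc k hk) (h k hk hk0)

/-- The compact piece of the cone. -/
def Kτ (N : ℕ) (τ : ℝ) : Set (Fin N ⊕ Fin N → ℝ) := {x | quad N x = -1 ∧ qt τ x ≤ 0}

theorem Kτ_subset (τ : ℝ) : Kτ N τ ⊆ HypNN N := fun _ hx => hx.1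

theorem isCompact_Kτ {τ : ℝ} (hτ : τ < 1) : IsCompact (Kτ N τ) := by
  refine Metric.isCompact_of_isClosed_isBounded ?_ ?_
  · refine IsClosed.inter ?_ ?_
    · have : Continuous (quad N) := by
        unfold quad
        fun_prop
      exact isClosed_eq this continuous_const
    · exact isClosed_le (continuous_qt τ) continuous_const
  · rw [isBounded_iff_forall_norm_le]
    set R : ℝ := 1 / (1 - τ) with hR
    have h1τ : 0 < 1 - τ := by linarith
    have hR0 : 0 ≤ R := by positivity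
    refine ⟨R + 1, fun x hx => ?_⟩
    obtain ⟨h1, h2⟩ := hx
    unfold quad at h1
    unfold qt at h2
    have h3 : ∑ i, x (Sum.inr i) ^ 2 ≤ R := by
      rw [hR, le_div_iff₀ h1τ]
      nlinarith
    have h4 : ∑ i, x (Sum.inl i) ^ 2 ≤ R := by linarith
    have hle : ∀ t : ℝ, t ^ 2 ≤ R → |t| ≤ R + 1 := by
      intro t ht
      rw [abs_le]
      constructor <;> nlinarith
    rw [pi_norm_le_iff_of_nonneg (by positivity)]
    intro i
    rw [Real.norm_eq_abs]
    apply hle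
    rcases i with i | i
    · exact (Finset.single_le_sum (f := fun i => x (Sum.inl i) ^ 2)
        (fun _ _ => sq_nonneg _) (Finset.mem_univ i)).trans h4
    · exact (Finset.single_le_sum (f := fun i => x (Sum.inr i) ^ 2)
        (fun _ _ => sq_nonneg _) (Finset.mem_univ i)).trans h3

/-- A nonzero vector in two translated strict cones gives a return to the compact piece. -/
theorem return_of_common (g g' : ONN N) {τ : ℝ} (hτ : τ < 1) (w : Fin N ⊕ Fin N → ℝ)
    (hw : w ≠ 0) (h : qt τ (g⁻¹.act w) ≤ 0) (h' : qt τ (g'⁻¹.act w) ≤ 0) :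
    (((g⁻¹ * g').act '' Kτ N τ) ∩ Kτ N τ).Nonempty := by
  have hne : g⁻¹.act w ≠ 0 := by
    intro h0
    apply hw
    rw [← act_inv_act g w, h0, act_eq_lin, map_zero]
  have hquad : quad N w < 0 := by
    have h1 : quad N (g⁻¹.act w) = quad N w := quad_act g⁻¹ w
    rw [← h1]
    by_contra hcon
    push Not at hcon
    have h2 : (1 - τ) * ∑ i, (g⁻¹.act w) (Sum.inr i) ^ 2 ≤ 0 := by
      unfold quad at hcon
      unfold qt at h
      linarith
    have h3 : ∑ i, (g⁻¹.act w) (Sum.inr i) ^ 2 ≤ 0 := by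
      by_contra h4
      push Not at h4
      have := mul_pos (sub_pos.2 hτ) h4
      linarith
    have h5 : ∑ i, (g⁻¹.act w) (Sum.inl i) ^ 2 ≤ 0 := by
      unfold qt at h
      have h6 : ∑ i, (g⁻¹.act w) (Sum.inr i) ^ 2 = 0 := le_antisymm h3 (sum_inr_nonneg _)
      rw [h6] at h
      linarith
    apply hne
    have h7 := eq_zero_of_sum_sq (w := fun i => (g⁻¹.act w) (Sum.inl i)) h5
    have h8 := eq_zero_of_sum_sq (w := fun i => (g⁻¹.act w) (Sum.inr i)) h3
    funext i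
    rcases i with i | i
    · exact congrFun h7 i
    · exact congrFun h8 i
  set r : ℝ := Real.sqrt (- quad N w) with hr
  have hr0 : 0 < r := Real.sqrt_pos.2 (by linarith)
  have hr2 : r ^ 2 = - quad N w := Real.sq_sqrt (by linarith)
  have hscale : ∀ k : ONN N, qt τ (k.act w) ≤ 0 → k.act (r⁻¹ • w) ∈ Kτ N τ := by
    intro k hk
    refine ⟨?_, ?_⟩
    · rw [quad_act, quad_eq_qt, qt_smul, ← quad_eq_qt]
      have : quad N w = - r ^ 2 := by linarith
      rw [this]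
      field_simp
    · rw [act_smul', qt_smul]
      exact mul_nonpos_of_nonneg_of_nonpos (sq_nonneg _) hk
  refine ⟨g⁻¹.act (r⁻¹ • w), ⟨g'⁻¹.act (r⁻¹ • w), hscale g'⁻¹ h', ?_⟩, hscale g⁻¹ h⟩
  rw [mul_act', act_inv_act]

end Pool.Agent.Lib.MP_7d6803_gt
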