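import Mathlib
import Pool.Agent.Lib.MP_7d6803_gt.Defs

/-!
# Elementary geometry of hyperbolic three-space and discrete groups acting on it
-/

open Matrix
open scoped ComplexOrder MatrixGroups

namespace Pool.Agent.Lib.MP_7d6803_gt

/-- The (real) trace. It equals `2 cosh d(o, h)`. -/
noncomputable def tr3 (h : Hyp3) : ℝ := (h.1.trace).re

/-- `DD h k = 2 cosh d(h, k)`. -/
noncomputable def DD (h k : Hyp3) : ℝ := ((h.1 * k.1.adjugate).trace).re

/-- The squared Hilbert–Schmidt norm. -/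
noncomputable def nsq (A : SL(2, ℂ)) : ℝ := ((A.1 * A.1ᴴ).trace).re

theorem Hyp3.coords (h : Hyp3) : ∃ a d b1 b2 : ℝ, h.1 0 0 = (a : ℂ) ∧ h.1 1 1 = (d : ℂ) ∧
    h.1 0 1 = (⟨b1, b2⟩ : ℂ) ∧ h.1 1 0 = (⟨b1, -b2⟩ : ℂ) ∧ 0 < a ∧ 0 < d ∧
    a * d - (b1 ^ 2 + b2 ^ 2) = 1 := by
  have h1 : 0 < h.1 0 0 := h.2.1.diag_pos
  have h2 : 0 < h.1 1 1 := h.2.1.diag_pos
  have h3 : h.1 1 0 = star (h.1 0 1) := (h.2.1.1.apply 1 0).symm
  rw [Complex.lt_def] at h1 h2
  have h4 := h.2.2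
  rw [det_fin_two] at h4
  have e00 : h.1 0 0 = (((h.1 0 0).re : ℝ) : ℂ) := Complex.ext rfl (by simpa using h1.2.symm)
  have e11 : h.1 1 1 = (((h.1 1 1).re : ℝ) : ℂ) := Complex.ext rfl (by simpa using h2.2.symm)
  refine ⟨(h.1 0 0).re, (h.1 1 1).re, (h.1 0 1).re, (h.1 0 1).im, e00, e11, rfl, ?_,
    by simpa using h1.1, by simpa using h2.1, ?_⟩
  · rw [h3]; rfl
  · have h5 := congrArg Complex.re h4
    rw [h3] at h5
    rw [e00, e11] at h5
    simp [Complex.mul_re] at h5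
    nlinarith

theorem tr3_eq (h : Hyp3) : tr3 h = (h.1 0 0).re + (h.1 1 1).re := by
  simp [tr3, trace_fin_two]

theorem trace_eq_tr3 (h : Hyp3) : h.1.trace = (tr3 h : ℂ) := by
  obtain ⟨a, d, b1, b2, h00, h11, h01, h10, ha, hd, hdet⟩ := h.coords
  rw [tr3_eq, trace_fin_two, h00, h11]
  simp

theorem tr3_pos (h : Hyp3) : 0 < tr3 h := by
  obtain ⟨a, d, b1, b2, h00, h11, h01, h10, ha, hd, hdet⟩ := h.coords
  rw [tr3_eq, h00, h11]
  simp
  linarith

theorem continuous_tr3 : Continuous tr3 := by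
  unfold tr3
  exact Complex.continuous_re.comp (Continuous.matrix_trace continuous_subtype_val)

theorem adjugate_eq (M : Matrix (Fin 2) (Fin 2) ℂ) : M.adjugate = M.trace • 1 - M := by
  rw [adjugate_fin_two, trace_fin_two]
  ext i j
  fin_cases i <;> fin_cases j <;> simp

theorem mul_self_eq (h : Hyp3) : h.1 * h.1 = h.1.trace • h.1 - 1 := by
  have h1 := Matrix.mul_adjugate h.1
  rw [adjugate_eq, h.2.2, mul_sub, mul_smul_comm, mul_one, one_smul] at h1
  rw [← h1]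
  abel

theorem DD_smul (A : SL(2, ℂ)) (h k : Hyp3) : DD (A • h) (A • k) = DD h k := by
  unfold DD
  rw [smul_val, smul_val, adjugate_mul_distrib, adjugate_mul_distrib]
  have h1 : A.1ᴴ * A.1ᴴ.adjugate = 1 := by
    rw [Matrix.mul_adjugate, det_conjTranspose, A.2]
    simp
  have h2 : A.1.adjugate * A.1 = 1 := by
    rw [Matrix.adjugate_mul, A.2, one_smul]
  congr 1
  calc (A.1 * h.1 * A.1ᴴ * (A.1ᴴ.adjugate * (k.1.adjugate * A.1.adjugate))).trace
      = (A.1 * h.1 * (A.1ᴴ * A.1ᴴ.adjugate) * k.1.adjugate * A.1.adjugate).trace := by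
        simp only [mul_assoc]
    _ = (A.1 * (h.1 * k.1.adjugate * A.1.adjugate)).trace := by
        rw [h1, mul_one]
        simp only [mul_assoc]
    _ = (h.1 * k.1.adjugate * A.1.adjugate * A.1).trace := by
        rw [Matrix.trace_mul_comm]
    _ = (h.1 * k.1.adjugate).trace := by
        rw [mul_assoc, h2, mul_one]

theorem re_trace_mul_nonneg (h k : Hyp3) : 0 ≤ ((h.1 * k.1).trace).re := by
  obtain ⟨a, d, b1, b2, h00, h11, h01, h10, ha, hd, hdet⟩ := h.coords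
  obtain ⟨p, r, q1, q2, k00, k11, k01, k10, hp, hr, kdet⟩ := k.coords
  rw [trace_fin_two, mul_apply, mul_apply, Fin.sum_univ_two, Fin.sum_univ_two, h00, h01, h10, h11,
    k00, k01, k10, k11]
  simp [Complex.mul_re]
  have h1 : (b1 * q1 + b2 * q2) ^ 2 ≤ (a * d) * (p * r) := by
    have e1 : (b1 * q1 + b2 * q2) ^ 2 ≤ (b1 ^ 2 + b2 ^ 2) * (q1 ^ 2 + q2 ^ 2) := by
      nlinarith [sq_nonneg (b1 * q2 - b2 * q1)]
    have e2 : (b1 ^ 2 + b2 ^ 2) * (q1 ^ 2 + q2 ^ 2) ≤ (a * d) * (p * r) := by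
      apply mul_le_mul <;> nlinarith [mul_pos ha hd, mul_pos hp hr, sq_nonneg b1, sq_nonneg b2,
        sq_nonneg q1, sq_nonneg q2]
    exact e1.trans e2
  have h2 : 4 * ((a * d) * (p * r)) ≤ (a * p + d * r) ^ 2 := by
    nlinarith [sq_nonneg (a * p - d * r)]
  have h3 : |2 * (b1 * q1 + b2 * q2)| ≤ a * p + d * r := by
    apply abs_le_of_sq_le_sq _ (by positivity)
    nlinarith
  have h4 := neg_le_of_abs_le h3
  nlinarith

theorem DD_le (h k : Hyp3) : DD h k ≤ tr3 h * tr3 k := by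
  have h1 : DD h k = tr3 h * tr3 k - ((h.1 * k.1).trace).re := by
    unfold DD
    rw [adjugate_eq, mul_sub, mul_smul_comm, mul_one, trace_sub, trace_smul, trace_eq_tr3,
      trace_eq_tr3]
    simp [mul_comm]
  rw [h1]
  have := re_trace_mul_nonneg h k
  linarith

theorem nsq_nonneg (A : SL(2, ℂ)) : 0 ≤ nsq A := by
  have h := (Matrix.posSemidef_self_mul_conjTranspose A.1).trace_nonneg
  rw [Complex.le_def] at h
  simpa [nsq] using h.1

theorem nsq_le (A : SL(2, ℂ)) (h : Hyp3) : nsq A ≤ tr3 h * tr3 (A • h) := by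
  have h1 := (Matrix.posSemidef_self_mul_conjTranspose (A.1 * h.1)).trace_nonneg
  have h2 : A.1 * h.1 * (A.1 * h.1)ᴴ = h.1.trace • (A.1 * h.1 * A.1ᴴ) - A.1 * A.1ᴴ := by
    rw [conjTranspose_mul, h.2.1.1.eq]
    calc A.1 * h.1 * (h.1 * A.1ᴴ) = A.1 * (h.1 * h.1) * A.1ᴴ := by simp only [mul_assoc]
      _ = _ := by
        rw [mul_self_eq, mul_sub, sub_mul, mul_smul_comm, smul_mul_assoc, mul_one]
  rw [h2, trace_sub, trace_smul, ← smul_val, trace_eq_tr3, trace_eq_tr3, Complex.le_def] at h1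
  have h3 := h1.1
  simp at h3
  unfold nsq
  linarith

theorem tr3_smul_le (A : SL(2, ℂ)) (h : Hyp3) : tr3 (A • h) ≤ tr3 h * nsq A := by
  have hpd : (h.1.adjugate).PosSemidef := by
    have h1 : h.1.adjugate = (h.1)⁻¹ := by
      rw [Matrix.inv_def, h.2.2]
      simp
    rw [h1]
    exact h.2.1.inv.posSemidef
  have h1 := (hpd.mul_mul_conjTranspose_same A.1).trace_nonneg
  rw [adjugate_eq, mul_sub, sub_mul, mul_smul_comm, mul_one, smul_mul_assoc, trace_sub, trace_smul,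
    ← smul_val, trace_eq_tr3, trace_eq_tr3, Complex.le_def] at h1
  have h3 := h1.1
  simp at h3
  unfold nsq
  linarith

theorem nsq_eq (A : SL(2, ℂ)) : nsq A = ‖A.1 0 0‖ ^ 2 + ‖A.1 0 1‖ ^ 2 + ‖A.1 1 0‖ ^ 2 +
    ‖A.1 1 1‖ ^ 2 := by
  unfold nsq
  rw [trace_fin_two, mul_apply, mul_apply, Fin.sum_univ_two, Fin.sum_univ_two]
  simp only [conjTranspose_apply, Complex.add_re, RCLike.star_def, Complex.mul_conj,
    Complex.ofReal_re, Complex.normSq_eq_norm_sq]
  ring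

theorem norm_entry_le (A : SL(2, ℂ)) (R : ℝ) (hA : nsq A ≤ R) (i j : Fin 2) :
    ‖A.1 i j‖ ≤ |R| + 1 := by
  rw [nsq_eq] at hA
  have key : ∀ t : ℝ, 0 ≤ t → t ^ 2 ≤ R → t ≤ |R| + 1 := by
    intro t ht h
    have := le_abs_self R
    nlinarith [abs_nonneg R]
  apply key _ (norm_nonneg _)
  fin_cases i <;> fin_cases j <;> simp <;>
    nlinarith [sq_nonneg ‖A.1 0 0‖, sq_nonneg ‖A.1 0 1‖, sq_nonneg ‖A.1 1 0‖, sq_nonneg ‖A.1 1 1‖]

theorem isCompact_nsq (R : ℝ) : IsCompact {A : SL(2, ℂ) | nsq A ≤ R} := by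
  have hcont : Continuous nsq := by
    unfold nsq
    have h1 : Continuous fun A : SL(2, ℂ) => A.1 := continuous_subtype_val
    exact Complex.continuous_re.comp (Continuous.matrix_trace (h1.matrix_mul h1.matrix_conjTranspose))
  have hclosed : IsClosed {A : SL(2, ℂ) | nsq A ≤ R} := isClosed_le hcont continuous_const
  have hK : IsCompact {M : Matrix (Fin 2) (Fin 2) ℂ | ∀ i j, M i j ∈ Metric.closedBall (0 : ℂ) (|R| + 1)} := by
    have h1 : {M : Matrix (Fin 2) (Fin 2) ℂ | ∀ i j, M i j ∈ Metric.closedBall (0 : ℂ) (|R| + 1)} =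
        Set.pi Set.univ (fun _ : Fin 2 => Set.pi Set.univ
          (fun _ : Fin 2 => Metric.closedBall (0 : ℂ) (|R| + 1))) := by
      ext M
      constructor
      · intro h i _ j _
        exact h i j
      · intro h i j
        exact h i (Set.mem_univ i) j (Set.mem_univ j)
    rw [h1]
    exact isCompact_univ_pi fun _ => isCompact_univ_pi fun _ => isCompact_closedBall _ _
  have hpre := (Matrix.SpecialLinearGroup.isClosedEmbedding_val (n := Fin 2)
    (R := ℂ)).isCompact_preimage hK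
  refine hpre.of_isClosed_subset hclosed ?_
  intro A hA i j
  rw [mem_closedBall_zero_iff]
  exact norm_entry_le A R hA i j

theorem isClosed_center : IsClosed ((Subgroup.center SL(2, ℂ) : Subgroup SL(2, ℂ)) : Set SL(2, ℂ)) := by
  have h1 : ((Subgroup.center SL(2, ℂ) : Subgroup SL(2, ℂ)) : Set SL(2, ℂ)) =
      ⋂ B : SL(2, ℂ), {A : SL(2, ℂ) | B * A = A * B} := by
    ext A
    simp [Subgroup.mem_center_iff]
  rw [h1]
  exact isClosed_iInter fun B => isClosed_eq (continuous_const.mul continuous_id)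
    (continuous_id.mul continuous_const)

/-- The projection `SL(2, ℂ) → PSL(2, ℂ)`. -/
def toPSL (A : SL(2, ℂ)) : PSL2C := (QuotientGroup.mk A : PSL(2, ℂ))

theorem toPSL_surjective (g : PSL2C) : ∃ A, toPSL A = g := QuotientGroup.mk_surjective g

theorem mk_smul (A : SL(2, ℂ)) (h : Hyp3) : (toPSL A • h : Hyp3) = A • h := rfl

theorem continuous_toPSL : Continuous toPSL :=
  (continuous_quotient_mk' : Continuous (QuotientGroup.mk : SL(2, ℂ) → PSL(2, ℂ)))

instance : IsTopologicalGroup PSL2C :=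
  (inferInstance : IsTopologicalGroup PSL(2, ℂ))

instance : T2Space PSL2C := by
  have : IsClosed ((Subgroup.center SL(2, ℂ) : Subgroup SL(2, ℂ)) : Set SL(2, ℂ)) :=
    isClosed_center
  exact (inferInstance : T2Space PSL(2, ℂ))

/-- For a discrete subgroup of `PSL(2, ℂ)` only finitely many elements move some point of a ball
into a ball. -/
theorem finite_return (Γ : Subgroup PSL2C) (hΓ : DiscreteTopology Γ) (C : ℝ) :
    {γ : Γ | ∃ h : Hyp3, tr3 h ≤ C ∧ tr3 ((γ : PSL2C) • h) ≤ C}.Finite := by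
  have hΓcl : IsClosed (Γ : Set PSL2C) := Subgroup.isClosed_of_discrete
  have hK : IsCompact (toPSL '' {A : SL(2, ℂ) | nsq A ≤ C ^ 2}) :=
    (isCompact_nsq _).image continuous_toPSL
  have hfin : ((toPSL '' {A : SL(2, ℂ) | nsq A ≤ C ^ 2}) ∩
      (Γ : Set PSL2C)).Finite := by
    have hc := hK.inter_right hΓcl
    refine hc.finite ?_
    have : IsDiscrete (Γ : Set PSL2C) := ⟨hΓ⟩
    exact this.mono Set.inter_subset_right
  refine (hfin.preimage (f := ((↑) : Γ → PSL2C)) Subtype.val_injective.injOn).subset ?_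
  rintro γ ⟨h, hh, hγh⟩
  obtain ⟨A, hA⟩ := toPSL_surjective (γ : PSL2C)
  refine ⟨⟨A, ?_, hA⟩, γ.2⟩
  rw [← hA, mk_smul] at hγh
  have h1 := nsq_le A h
  have h2 := tr3_pos h
  have h3 := tr3_pos (A • h)
  change nsq A ≤ C ^ 2
  nlinarith

end Pool.Agent.Lib.MP_7d6803_gt
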