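import Mathlib

/-!
# Explicit anticommuting matrices and the vacuum line

For every `N` there are square real matrices `lam i`, `mu i` (`i : Fin N`), all anticommuting, with
`lam i ^ 2 = 1`, `mu i ^ 2 = -1`, with a one dimensional common kernel of the `lam i - mu i`,
and with a matrix `Om` (the product of the `lam i`) satisfying the expected relations.
-/

open Matrix

namespace Pool.Agent.Lib.MP_7d6803_gt

/-- A system of anticommuting matrices with a vacuum vector and a volume element. -/
structure IsSpinSystem {ι : Type} [Fintype ι] [DecidableEq ι] (N : ℕ)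
    (lam mu : Fin N → Matrix ι ι ℝ) (Om : Matrix ι ι ℝ) (v0 : ι → ℝ) : Prop where
  lam_sq : ∀ i, lam i * lam i = 1
  mu_sq : ∀ i, mu i * mu i = -1
  lam_anti : ∀ i j, i ≠ j → lam i * lam j = -(lam j * lam i)
  mu_anti : ∀ i j, i ≠ j → mu i * mu j = -(mu j * mu i)
  lam_mu : ∀ i j, lam i * mu j = -(mu j * lam i)
  vac_mem : ∀ i, lam i *ᵥ v0 = mu i *ᵥ v0
  vac_ne : v0 ≠ 0
  vac_unique : ∀ s : ι → ℝ, (∀ i, lam i *ᵥ s = mu i *ᵥ s) → ∃ c : ℝ, s = c • v0
  om_lam : ∀ i, Om * lam i = -((-1 : ℝ) ^ N • (lam i * Om))
  om_mu : ∀ i, Om * mu i = (-1 : ℝ) ^ N • (mu i * Om)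
  om_sq : Om * Om = (-1 : ℝ) ^ (N.choose 2) • (1 : Matrix ι ι ℝ)

theorem neg_one_pow_mul_self (N : ℕ) : (-1 : ℝ) ^ N * (-1 : ℝ) ^ N = 1 := by
  rw [← mul_pow]; simp

theorem exists_spinSystem (N : ℕ) : ∃ (ι : Type) (_ : Fintype ι) (_ : DecidableEq ι)
    (lam mu : Fin N → Matrix ι ι ℝ) (Om : Matrix ι ι ℝ) (v0 : ι → ℝ),
    IsSpinSystem N lam mu Om v0 := by
  induction N with
  | zero =>
    refine ⟨Unit, inferInstance, inferInstance, fun i => i.elim0, fun i => i.elim0, 1,
      fun _ => 1, ?_⟩
    constructor
    · exact fun i => i.elim0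
    · exact fun i => i.elim0
    · exact fun i => i.elim0
    · exact fun i => i.elim0
    · exact fun i => i.elim0
    · exact fun i => i.elim0
    · intro h
      have := congrFun h ()
      simp at this
    · intro s _
      refine ⟨s (), ?_⟩
      funext x
      simp
    · exact fun i => i.elim0
    · exact fun i => i.elim0
    · simp
  | succ N ih =>
    obtain ⟨ι, hf, hd, lam, mu, Om, v0, H⟩ := ih
    refine ⟨ι ⊕ ι, inferInstance, inferInstance,
      Fin.snoc (α := fun _ => Matrix (ι ⊕ ι) (ι ⊕ ι) ℝ)
        (fun i => fromBlocks (lam i) 0 0 (-lam i)) (fromBlocks 0 1 1 0),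
      Fin.snoc (α := fun _ => Matrix (ι ⊕ ι) (ι ⊕ ι) ℝ)
        (fun i => fromBlocks (mu i) 0 0 (-mu i)) (fromBlocks 0 1 (-1) 0),
      fromBlocks 0 Om ((-1 : ℝ) ^ N • Om) 0, Sum.elim 0 v0, ?_⟩
    constructor
    · intro i
      refine Fin.lastCases ?_ (fun i => ?_) i
      · simp [fromBlocks_multiply, fromBlocks_one]
      · simp [fromBlocks_multiply, H.lam_sq, fromBlocks_one]
    · intro i
      refine Fin.lastCases ?_ (fun i => ?_) i
      · simp only [Fin.snoc_last, fromBlocks_multiply]
        simp [← fromBlocks_one, fromBlocks_neg]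
      · simp only [Fin.snoc_castSucc, fromBlocks_multiply]
        simp [H.mu_sq, ← fromBlocks_one, fromBlocks_neg]
    · intro i j
      refine Fin.lastCases ?_ (fun i => ?_) i <;> refine Fin.lastCases ?_ (fun j => ?_) j
      · intro h; exact absurd rfl h
      · intro _
        simp only [Fin.snoc_last, Fin.snoc_castSucc, fromBlocks_multiply, fromBlocks_neg]
        simp
      · intro _
        simp only [Fin.snoc_last, Fin.snoc_castSucc, fromBlocks_multiply, fromBlocks_neg]
        simp
      · intro h
        have hij : i ≠ j := fun h' => h (by rw [h'])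
        simp only [Fin.snoc_castSucc, fromBlocks_multiply, fromBlocks_neg]
        simp [H.lam_anti i j hij]
    · intro i j
      refine Fin.lastCases ?_ (fun i => ?_) i <;> refine Fin.lastCases ?_ (fun j => ?_) j
      · intro h; exact absurd rfl h
      · intro _
        simp only [Fin.snoc_last, Fin.snoc_castSucc, fromBlocks_multiply, fromBlocks_neg]
        simp
      · intro _
        simp only [Fin.snoc_last, Fin.snoc_castSucc, fromBlocks_multiply, fromBlocks_neg]
        simp
      · intro h
        have hij : i ≠ j := fun h' => h (by rw [h'])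
        simp only [Fin.snoc_castSucc, fromBlocks_multiply, fromBlocks_neg]
        simp [H.mu_anti i j hij]
    · intro i j
      refine Fin.lastCases ?_ (fun i => ?_) i <;> refine Fin.lastCases ?_ (fun j => ?_) j
      · simp only [Fin.snoc_last, fromBlocks_multiply, fromBlocks_neg]
        simp
      · simp only [Fin.snoc_last, Fin.snoc_castSucc, fromBlocks_multiply, fromBlocks_neg]
        simp
      · simp only [Fin.snoc_last, Fin.snoc_castSucc, fromBlocks_multiply, fromBlocks_neg]
        simp
      · simp only [Fin.snoc_castSucc, fromBlocks_multiply, fromBlocks_neg]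
        simp [H.lam_mu i j]
    · intro i
      refine Fin.lastCases ?_ (fun i => ?_) i
      · simp [fromBlocks_mulVec]
      · simp [fromBlocks_mulVec, neg_mulVec, H.vac_mem i]
    · intro h
      apply H.vac_ne
      funext x
      exact congrFun h (Sum.inr x)
    · intro s hs
      have h1 := hs (Fin.last N)
      simp only [Fin.snoc_last, fromBlocks_mulVec] at h1
      have hs1 : s ∘ Sum.inl = 0 := by
        funext x
        have := congrFun h1 (Sum.inr x)
        simp [neg_mulVec] at this
        simp
        linarith
      have h2 : ∀ i, lam i *ᵥ (s ∘ Sum.inr) = mu i *ᵥ (s ∘ Sum.inr) := by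
        intro i
        have h3 := hs i.castSucc
        simp only [Fin.snoc_castSucc, fromBlocks_mulVec] at h3
        funext x
        have := congrFun h3 (Sum.inr x)
        simp [neg_mulVec] at this
        linarith
      obtain ⟨c, hc⟩ := H.vac_unique _ h2
      refine ⟨c, ?_⟩
      funext x
      rcases x with x | x
      · have := congrFun hs1 x
        simpa using this
      · have := congrFun hc x
        simpa using this
    · intro i
      refine Fin.lastCases ?_ (fun i => ?_) i
      · simp only [Fin.snoc_last, fromBlocks_multiply, fromBlocks_neg, fromBlocks_smul]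
        rw [pow_succ]
        simp [smul_smul, neg_one_pow_mul_self]
      · simp only [Fin.snoc_castSucc, fromBlocks_multiply, fromBlocks_neg, fromBlocks_smul]
        rw [pow_succ]
        simp [H.om_lam i, smul_smul, neg_one_pow_mul_self]
    · intro i
      refine Fin.lastCases ?_ (fun i => ?_) i
      · simp only [Fin.snoc_last, fromBlocks_multiply, fromBlocks_smul]
        rw [pow_succ]
        simp [smul_smul, neg_one_pow_mul_self]
      · simp only [Fin.snoc_castSucc, fromBlocks_multiply, fromBlocks_smul]
        rw [pow_succ]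
        simp [H.om_mu i, smul_smul, neg_one_pow_mul_self]
    · have hch : (N + 1).choose 2 = N + N.choose 2 := by
        rw [Nat.choose_succ_succ' N 1, Nat.choose_one_right]
      rw [hch, pow_add]
      simp only [fromBlocks_multiply]
      simp [H.om_sq, ← fromBlocks_one, fromBlocks_smul, smul_smul]

end Pool.Agent.Lib.MP_7d6803_gt
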