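import Mathlib

/-!
# Transport of a line along a continuous family of idempotents over the disc
-/

open Matrix

namespace Pool.Agent.Lib.MP_7d6803_gt

variable {ι : Type} [Fintype ι] [DecidableEq ι]

/-- A matrix as a continuous linear map. -/
noncomputable def opN : Matrix ι ι ℝ →ₗ[ℝ] ((ι → ℝ) →L[ℝ] (ι → ℝ)) :=
  (LinearMap.toContinuousLinearMap : ((ι → ℝ) →ₗ[ℝ] (ι → ℝ)) ≃ₗ[ℝ] _).toLinearMap ∘ₗ
    (Matrix.toLin' : Matrix ι ι ℝ ≃ₗ[ℝ] _).toLinearMap

theorem opN_apply (A : Matrix ι ι ℝ) (v : ι → ℝ) : opN A v = A *ᵥ v := by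
  simp [opN]

theorem continuous_opN : Continuous (opN : Matrix ι ι ℝ → ((ι → ℝ) →L[ℝ] (ι → ℝ))) :=
  LinearMap.continuous_of_finiteDimensional _

theorem eq_zero_of_near (P Q : Matrix ι ι ℝ) (h : ‖opN P - opN Q‖ < 1) (u : ι → ℝ)
    (hQ : Q *ᵥ u = u) (hP : P *ᵥ u = 0) : u = 0 := by
  by_contra hne
  have hpos : 0 < ‖u‖ := norm_pos_iff.2 hne
  have h1 : (opN P - opN Q) u = -u := by
    rw [_root_.sub_apply, opN_apply, opN_apply, hQ, hP, zero_sub]
  have h2 : ‖(opN P - opN Q) u‖ ≤ ‖opN P - opN Q‖ * ‖u‖ := ContinuousLinearMap.le_opNorm _ _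
  rw [h1, norm_neg] at h2
  nlinarith

/-- The radial transport. -/
noncomputable def chain (P : ℂ → Matrix ι ι ℝ) (v0 : ι → ℝ) (n : ℕ) : ℕ → ℂ → ι → ℝ
  | 0, _ => v0
  | k + 1, z => P (((((k : ℝ) + 1) / n : ℝ) : ℂ) * z) *ᵥ chain P v0 n k z

omit [DecidableEq ι] in
theorem continuous_chain (P : ℂ → Matrix ι ι ℝ) (hP : Continuous P) (v0 : ι → ℝ) (n k : ℕ) :
    Continuous (chain P v0 n k) := by
  induction k with
  | zero => exact continuous_const
  | succ k ih =>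
    have h1 : Continuous (fun z : ℂ => P (((((k : ℝ) + 1) / n : ℝ) : ℂ) * z)) :=
      hP.comp (continuous_const.mul continuous_id)
    exact h1.matrix_mulVec ih

theorem exists_section (P : ℂ → Matrix ι ι ℝ) (hP : Continuous P) (hidem : ∀ z, P z * P z = P z)
    (v0 : ι → ℝ) (hv0 : v0 ≠ 0) (hmem : P 0 *ᵥ v0 = v0)
    (huniq : ∀ u, P 0 *ᵥ u = u → ∃ c : ℝ, u = c • v0) :
    ∃ s : ℂ → ι → ℝ, Continuous s ∧ ∀ z, ‖z‖ ≤ 1 →
      (P z *ᵥ s z = s z ∧ s z ≠ 0 ∧ ∀ u, P z *ᵥ u = u → ∃ c : ℝ, u = c • s z) := by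
  have hunif : UniformContinuousOn (fun z => opN (P z)) (Metric.closedBall (0 : ℂ) 1) :=
    (isCompact_closedBall (0 : ℂ) 1).uniformContinuousOn_of_continuous
      (continuous_opN.comp hP).continuousOn
  rw [Metric.uniformContinuousOn_iff] at hunif
  obtain ⟨δ, hδ, hunif⟩ := hunif 1 one_pos
  obtain ⟨n, hn⟩ := exists_nat_one_div_lt hδ
  have hn1 : (0 : ℝ) < (n : ℝ) + 1 := by positivity
  set m : ℕ := n + 1 with hm
  have hmpos : (0 : ℝ) < (m : ℝ) := by rw [hm]; push_cast; positivity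
  -- nearby points
  have hnear : ∀ k : ℕ, k + 1 ≤ m → ∀ z : ℂ, ‖z‖ ≤ 1 →
      ‖opN (P (((((k : ℝ) + 1) / m : ℝ) : ℂ) * z)) - opN (P ((((k : ℝ) / m : ℝ) : ℂ) * z))‖ < 1 := by
    intro k hk z hz
    have hk' : (k : ℝ) + 1 ≤ m := by exact_mod_cast hk
    have hball : ∀ r : ℝ, 0 ≤ r → r ≤ m → (((r / m : ℝ) : ℂ) * z) ∈ Metric.closedBall (0 : ℂ) 1 := by
      intro r hr0 hr
      rw [mem_closedBall_zero_iff, norm_mul, Complex.norm_real, Real.norm_eq_abs,
        abs_of_nonneg (by positivity)]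
      have h1 : r / m ≤ 1 := by rw [div_le_one hmpos]; exact hr
      have h2 : 0 ≤ r / m := by positivity
      nlinarith [norm_nonneg z]
    have h1 := hunif _ (hball ((k : ℝ) + 1) (by positivity) hk') _
      (hball (k : ℝ) (by positivity) (by linarith)) (by
        rw [dist_eq_norm, ← sub_mul, norm_mul, ← Complex.ofReal_sub, Complex.norm_real,
          ← sub_div, add_sub_cancel_left, Real.norm_eq_abs, abs_of_nonneg (by positivity)]
        have h3 : (1 : ℝ) / m < δ := by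
          rw [hm]; push_cast; exact hn
        have h4 : 0 ≤ (1 : ℝ) / m := by positivity
        nlinarith [norm_nonneg z])
    rwa [dist_eq_norm] at h1
  have claimA : ∀ k : ℕ, k ≤ m → ∀ z : ℂ, ‖z‖ ≤ 1 →
      P ((((k : ℝ) / m : ℝ) : ℂ) * z) *ᵥ chain P v0 m k z = chain P v0 m k z ∧
        chain P v0 m k z ≠ 0 := by
    intro k
    induction k with
    | zero =>
      intro _ z _
      refine ⟨?_, hv0⟩
      simp only [chain]
      have : (((((0 : ℕ) : ℝ) / m : ℝ) : ℂ) * z) = 0 := by simp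
      rw [this, hmem]
    | succ k ih =>
      intro hk z hz
      obtain ⟨ih1, ih2⟩ := ih (Nat.le_of_succ_le hk) z hz
      have hcast : (((k + 1 : ℕ) : ℝ)) = (k : ℝ) + 1 := by push_cast; ring
      rw [hcast]
      refine ⟨?_, ?_⟩
      · simp only [chain]
        rw [mulVec_mulVec, hidem]
      · intro h0
        simp only [chain] at h0
        exact ih2 (eq_zero_of_near _ _ (hnear k hk z hz) _ ih1 h0)
  have claimB : ∀ k : ℕ, k ≤ m → ∀ z : ℂ, ‖z‖ ≤ 1 → ∀ u : ι → ℝ,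
      P ((((k : ℝ) / m : ℝ) : ℂ) * z) *ᵥ u = u → ∃ c : ℝ, u = c • chain P v0 m k z := by
    intro k
    induction k with
    | zero =>
      intro _ z _ u hu
      have h0 : (((((0 : ℕ) : ℝ) / m : ℝ) : ℂ) * z) = 0 := by simp
      rw [h0] at hu
      exact huniq u hu
    | succ k ih =>
      intro hk z hz u hu
      have hcast : (((k + 1 : ℕ) : ℝ)) = (k : ℝ) + 1 := by push_cast; ring
      obtain ⟨hA1, hA2⟩ := claimA (k + 1) hk z hz
      rw [hcast] at hu hA1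
      set Pk := P ((((k : ℝ) / m : ℝ) : ℂ) * z) with hPk
      set Pk1 := P (((((k : ℝ) + 1) / m : ℝ) : ℂ) * z) with hPk1
      have hinj : ∀ w : ι → ℝ, Pk1 *ᵥ w = w → Pk *ᵥ w = 0 → w = 0 := by
        intro w h1 h2
        refine eq_zero_of_near Pk Pk1 ?_ w h1 h2
        rw [norm_sub_rev]
        exact hnear k hk z hz
      have hk' := Nat.le_of_succ_le hk
      obtain ⟨c, hc⟩ := ih hk' z hz (Pk *ᵥ u) (by rw [mulVec_mulVec, ← hPk, hidem])
      obtain ⟨d, hd⟩ := ih hk' z hz (Pk *ᵥ chain P v0 m (k + 1) z)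
        (by rw [mulVec_mulVec, ← hPk, hidem])
      have hd0 : d ≠ 0 := by
        rintro rfl
        rw [zero_smul] at hd
        exact hA2 (hinj _ hA1 hd)
      refine ⟨c / d, ?_⟩
      rw [← sub_eq_zero]
      apply hinj
      · rw [mulVec_sub, mulVec_smul, hu, hA1]
      · rw [mulVec_sub, mulVec_smul, hc, hd, smul_smul, div_mul_cancel₀ _ hd0, sub_self]
  refine ⟨chain P v0 m m, continuous_chain P hP v0 m m, fun z hz => ?_⟩
  have hone : ((((m : ℝ) / m : ℝ) : ℂ) * z) = z := by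
    rw [div_self hmpos.ne', Complex.ofReal_one, one_mul]
  have hA := claimA m le_rfl z hz
  have hB := claimB m le_rfl z hz
  rw [hone] at hA hB
  exact ⟨hA.1, hA.2, hB⟩

end Pool.Agent.Lib.MP_7d6803_gt
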