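import Mathlib
import Pool.Agent.Lib.MP_7d6803_gt.Spin
import Pool.Agent.Lib.MP_7d6803_gt.Transport

/-!
# No odd boundary values on the disc for orthogonal matrices of size `2 mod 4`
-/

open Matrix

namespace Pool.Agent.Lib.MP_7d6803_gt

variable {ι : Type} [Fintype ι] [DecidableEq ι] {N : ℕ}

/-- Clifford multiplication by a vector. -/
def cl (lam : Fin N → Matrix ι ι ℝ) (a : Fin N → ℝ) : Matrix ι ι ℝ := ∑ k, a k • lam k

theorem cl_anticomm {lam mu : Fin N → Matrix ι ι ℝ} {Om : Matrix ι ι ℝ} {v0 : ι → ℝ}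
    (H : IsSpinSystem N lam mu Om v0) (a b : Fin N → ℝ) :
    cl lam a * cl lam b + cl lam b * cl lam a = (2 * ∑ k, a k * b k) • (1 : Matrix ι ι ℝ) := by
  have h1 : cl lam a * cl lam b = ∑ k, ∑ l, (a k * b l) • (lam k * lam l) := by
    simp only [cl, Finset.sum_mul_sum, smul_mul_smul_comm]
  have h2 : cl lam b * cl lam a = ∑ k, ∑ l, (a k * b l) • (lam l * lam k) := by
    simp only [cl, Finset.sum_mul_sum, smul_mul_smul_comm]
    rw [Finset.sum_comm]
    refine Finset.sum_congr rfl fun k _ => Finset.sum_congr rfl fun l _ => ?_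
    rw [mul_comm]
  rw [h1, h2, ← Finset.sum_add_distrib]
  have h3 : ∀ k, (∑ l, (a k * b l) • (lam k * lam l)) + (∑ l, (a k * b l) • (lam l * lam k)) =
      (2 * (a k * b k)) • (1 : Matrix ι ι ℝ) := by
    intro k
    rw [← Finset.sum_add_distrib, Finset.sum_eq_single k]
    · rw [H.lam_sq, ← add_smul]
      congr 1
      ring
    · intro l _ hl
      rw [H.lam_anti k l (Ne.symm hl), smul_neg, neg_add_cancel]
    · intro h
      exact absurd (Finset.mem_univ k) h
  simp only [h3]
  rw [← Finset.sum_smul, Finset.mul_sum]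

theorem cl_mu {lam mu : Fin N → Matrix ι ι ℝ} {Om : Matrix ι ι ℝ} {v0 : ι → ℝ}
    (H : IsSpinSystem N lam mu Om v0) (a : Fin N → ℝ) (j : Fin N) :
    cl lam a * mu j = -(mu j * cl lam a) := by
  simp only [cl, Finset.sum_mul, Finset.mul_sum, ← Finset.sum_neg_distrib]
  refine Finset.sum_congr rfl fun k _ => ?_
  rw [smul_mul_assoc, H.lam_mu, mul_smul_comm, smul_neg]

/-- The commuting involutions attached to an orthogonal matrix. -/
def Tt (lam mu : Fin N → Matrix ι ι ℝ) (A : Matrix (Fin N) (Fin N) ℝ) (i : Fin N) :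
    Matrix ι ι ℝ := cl lam (fun j => A j i) * mu i

theorem cl_sq {lam mu : Fin N → Matrix ι ι ℝ} {Om : Matrix ι ι ℝ} {v0 : ι → ℝ}
    (H : IsSpinSystem N lam mu Om v0) (a : Fin N → ℝ) :
    cl lam a * cl lam a = (∑ k, a k * a k) • (1 : Matrix ι ι ℝ) := by
  have h := cl_anticomm H a a
  have h2 : (2 : ℝ) • (cl lam a * cl lam a) = (2 : ℝ) • ((∑ k, a k * a k) • (1 : Matrix ι ι ℝ)) := by
    rw [two_smul, h, smul_smul]
  exact smul_right_injective _ (two_ne_zero) h2

theorem orth_entry {A : Matrix (Fin N) (Fin N) ℝ} (hA : Aᵀ * A = 1) (i j : Fin N) :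
    ∑ k, A k i * A k j = if i = j then 1 else 0 := by
  have := congrFun (congrFun hA i) j
  rw [mul_apply, one_apply] at this
  simpa [transpose_apply] using this

theorem Tt_sq {lam mu : Fin N → Matrix ι ι ℝ} {Om : Matrix ι ι ℝ} {v0 : ι → ℝ}
    (H : IsSpinSystem N lam mu Om v0) {A : Matrix (Fin N) (Fin N) ℝ} (hA : Aᵀ * A = 1)
    (i : Fin N) : Tt lam mu A i * Tt lam mu A i = 1 := by
  have h1 : cl lam (fun j => A j i) * cl lam (fun j => A j i) = 1 := by
    rw [cl_sq H, orth_entry hA]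
    simp
  have h2 := cl_mu H (fun j => A j i) i
  set a := cl lam (fun j => A j i) with ha
  calc Tt lam mu A i * Tt lam mu A i = a * (mu i * a) * mu i := by
        simp only [Tt, ← ha, mul_assoc]
    _ = -(a * a * (mu i * mu i)) := by
        have : mu i * a = -(a * mu i) := by rw [h2, neg_neg]
        rw [this]
        simp only [mul_neg, neg_mul, mul_assoc]
    _ = 1 := by rw [h1, H.mu_sq]; simp

theorem Tt_comm {lam mu : Fin N → Matrix ι ι ℝ} {Om : Matrix ι ι ℝ} {v0 : ι → ℝ}
    (H : IsSpinSystem N lam mu Om v0) {A : Matrix (Fin N) (Fin N) ℝ} (hA : Aᵀ * A = 1)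
    (i j : Fin N) : Tt lam mu A i * Tt lam mu A j = Tt lam mu A j * Tt lam mu A i := by
  by_cases hij : i = j
  · rw [hij]
  have h1 := cl_anticomm H (fun k => A k i) (fun k => A k j)
  rw [orth_entry hA] at h1
  simp only [hij, if_false, mul_zero, zero_smul] at h1
  have h2 := cl_mu H (fun k => A k i) j
  have h3 := cl_mu H (fun k => A k j) i
  set a := cl lam (fun k => A k i) with ha
  set b := cl lam (fun k => A k j) with hb
  have h4 : a * b = -(b * a) := eq_neg_of_add_eq_zero_left h1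
  have h5 : mu i * b = -(b * mu i) := by rw [h3, neg_neg]
  have h6 : mu j * a = -(a * mu j) := by rw [h2, neg_neg]
  calc Tt lam mu A i * Tt lam mu A j = a * (mu i * b) * mu j := by
        simp only [Tt, ← ha, ← hb, mul_assoc]
    _ = -(a * b * (mu i * mu j)) := by
        rw [h5]; simp only [mul_neg, neg_mul, mul_assoc]
    _ = -(b * a * (mu j * mu i)) := by
        rw [h4, H.mu_anti i j hij]; simp only [neg_mul, mul_neg, neg_neg]
    _ = b * (mu j * a) * mu i := by
        rw [h6]; simp only [mul_neg, neg_mul, mul_assoc]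
    _ = Tt lam mu A j * Tt lam mu A i := by
        simp only [Tt, ← ha, ← hb, mul_assoc]

/-- The projection to the spinor line, as a product of commuting projections. -/
noncomputable def Pp (lam mu : Fin N → Matrix ι ι ℝ) (A : Matrix (Fin N) (Fin N) ℝ)
    (l : List (Fin N)) : Matrix ι ι ℝ :=
  (l.map fun i => (1 / 2 : ℝ) • (1 + Tt lam mu A i)).prod

theorem Pp_fix (lam mu : Fin N → Matrix ι ι ℝ) (A : Matrix (Fin N) (Fin N) ℝ) (l : List (Fin N))
    (s : ι → ℝ) (hs : ∀ i, Tt lam mu A i *ᵥ s = s) : Pp lam mu A l *ᵥ s = s := by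
  induction l with
  | nil => simp [Pp]
  | cons i l ih =>
    have h1 : Pp lam mu A (i :: l) = ((1 / 2 : ℝ) • (1 + Tt lam mu A i)) * Pp lam mu A l := by
      simp [Pp]
    rw [h1, ← mulVec_mulVec, ih, smul_mulVec, add_mulVec, one_mulVec, hs i]
    funext x
    simp
    ring

theorem Tt_Pp {lam mu : Fin N → Matrix ι ι ℝ} {Om : Matrix ι ι ℝ} {v0 : ι → ℝ}
    (H : IsSpinSystem N lam mu Om v0) {A : Matrix (Fin N) (Fin N) ℝ} (hA : Aᵀ * A = 1)
    (l : List (Fin N)) (i : Fin N) (hi : i ∈ l) : Tt lam mu A i * Pp lam mu A l = Pp lam mu A l := by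
  induction l with
  | nil => simp at hi
  | cons j l ih =>
    have h1 : Pp lam mu A (j :: l) = ((1 / 2 : ℝ) • (1 + Tt lam mu A j)) * Pp lam mu A l := by
      simp [Pp]
    rw [h1]
    by_cases hij : i = j
    · subst hij
      rw [← mul_assoc]
      congr 1
      rw [mul_smul_comm, mul_add, mul_one, Tt_sq H hA, add_comm]
    · have hil : i ∈ l := by
        rcases List.mem_cons.1 hi with h | h
        · exact absurd h hij
        · exact h
      rw [← mul_assoc, mul_smul_comm, mul_add, mul_one, Tt_comm H hA i j]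
      have : Tt lam mu A i + Tt lam mu A j * Tt lam mu A i = (1 + Tt lam mu A j) * Tt lam mu A i := by
        rw [add_mul, one_mul]
      rw [this, ← smul_mul_assoc, mul_assoc, ih hil]

theorem continuous_Pp {X : Type} [TopologicalSpace X] (lam mu : Fin N → Matrix ι ι ℝ)
    (G : X → Matrix (Fin N) (Fin N) ℝ) (hG : Continuous G) (l : List (Fin N)) :
    Continuous fun x => Pp lam mu (G x) l := by
  unfold Pp
  refine continuous_list_prod l fun i _ => ?_
  have h1 : Continuous fun x => ∑ k, G x k i • lam k :=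
    continuous_finsetSum _ fun k _ => (hG.matrix_elem k i).smul continuous_const
  have h2 : Continuous fun x => Tt lam mu (G x) i := h1.matrix_mul continuous_const
  have h3 : Continuous fun x => (1 : Matrix ι ι ℝ) + Tt lam mu (G x) i := continuous_const.add h2
  exact h3.const_smul (1 / 2 : ℝ)

/-- Membership in the spinor line in terms of the involutions. -/
theorem Pp_iff {lam mu : Fin N → Matrix ι ι ℝ} {Om : Matrix ι ι ℝ} {v0 : ι → ℝ}
    (H : IsSpinSystem N lam mu Om v0) {A : Matrix (Fin N) (Fin N) ℝ} (hA : Aᵀ * A = 1)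
    (s : ι → ℝ) : Pp lam mu A (List.finRange N) *ᵥ s = s ↔ ∀ i, Tt lam mu A i *ᵥ s = s := by
  constructor
  · intro h i
    rw [← h, mulVec_mulVec, Tt_Pp H hA _ i (List.mem_finRange i)]
  · exact Pp_fix lam mu A _ s

omit [Fintype ι] [DecidableEq ι] in
theorem cl_one_col (lam : Fin N → Matrix ι ι ℝ) (i : Fin N) :
    cl lam (fun j => (1 : Matrix (Fin N) (Fin N) ℝ) j i) = lam i := by
  unfold cl
  rw [Finset.sum_eq_single i]
  · simp
  · intro j _ hj
    simp [one_apply, hj]
  · intro h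
    exact absurd (Finset.mem_univ i) h

omit [Fintype ι] [DecidableEq ι] in
theorem cl_neg (lam : Fin N → Matrix ι ι ℝ) (a : Fin N → ℝ) :
    cl lam (fun j => - a j) = - cl lam a := by
  simp [cl]

/-- There is no continuous map from the closed disc to orthogonal matrices of size `N`,
`N = 2 mod 4`, with value `1` at the centre, which is odd on the boundary circle. -/
theorem disc_contra (hN : N % 4 = 2) (G : ℂ → Matrix (Fin N) (Fin N) ℝ) (hG : Continuous G)
    (horth : ∀ z, (G z)ᵀ * G z = 1) (h0 : G 0 = 1) (hodd : ∀ z, ‖z‖ = 1 → G (-z) = - G z) :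
    False := by
  obtain ⟨ι, hf, hd, lam, mu, Om, v0, H⟩ := exists_spinSystem N
  set P : ℂ → Matrix ι ι ℝ := fun z => Pp lam mu (G z) (List.finRange N) with hP
  have hPc : Continuous P := continuous_Pp lam mu G hG _
  have hPiff : ∀ z s, P z *ᵥ s = s ↔ ∀ i, Tt lam mu (G z) i *ᵥ s = s := fun z s =>
    Pp_iff H (horth z) s
  have hidem : ∀ z, P z * P z = P z := by
    intro z
    have h1 : ∀ v : ι → ℝ, P z *ᵥ (P z *ᵥ v) = P z *ᵥ v := by
      intro v
      rw [hPiff]
      intro i
      rw [mulVec_mulVec, hP]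
      simp only
      rw [Tt_Pp H (horth z) _ i (List.mem_finRange i)]
    apply Matrix.toLin'.injective
    apply LinearMap.ext
    intro v
    rw [toLin'_apply, toLin'_apply, ← mulVec_mulVec]
    exact h1 v
  have hvac : ∀ u : ι → ℝ, P 0 *ᵥ u = u ↔ ∀ i, lam i *ᵥ u = mu i *ᵥ u := by
    intro u
    rw [hPiff, h0]
    refine forall_congr' fun i => ?_
    unfold Tt
    rw [cl_one_col]
    constructor
    · intro h
      have h1 : lam i *ᵥ ((lam i * mu i) *ᵥ u) = lam i *ᵥ u := by rw [h]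
      rw [mulVec_mulVec, ← mul_assoc, H.lam_sq, one_mul] at h1
      exact h1.symm
    · intro h
      rw [← mulVec_mulVec, ← h, mulVec_mulVec, H.lam_sq, one_mulVec]
  obtain ⟨s, hs, hsec⟩ := exists_section P hPc hidem v0 H.vac_ne ((hvac v0).2 H.vac_mem)
    (fun u hu => H.vac_unique u ((hvac u).1 hu))
  -- the volume element maps the line at `z` to the line at `-z`
  have hNeven : (-1 : ℝ) ^ N = 1 := by
    have : Even N := by rw [Nat.even_iff]; omega
    exact this.neg_one_pow
  have hOmlam : ∀ a : Fin N → ℝ, Om * cl lam a = -(cl lam a * Om) := by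
    intro a
    simp only [cl, Finset.sum_mul, Finset.mul_sum, ← Finset.sum_neg_distrib]
    refine Finset.sum_congr rfl fun k _ => ?_
    rw [mul_smul_comm, H.om_lam, hNeven, one_smul, smul_mul_assoc, smul_neg]
  have hOmmu : ∀ i, Om * mu i = mu i * Om := by
    intro i
    rw [H.om_mu, hNeven, one_smul]
  have hOmsq : Om * Om = -1 := by
    have hch : Odd (N.choose 2) := by
      rw [Nat.choose_two_right]
      obtain ⟨q, hq⟩ : ∃ q, N = 4 * q + 2 := ⟨N / 4, by omega⟩
      subst hq
      have h1 : (4 * q + 2) * (4 * q + 2 - 1) = 2 * ((2 * q + 1) * (4 * q + 1)) := by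
        have : 4 * q + 2 - 1 = 4 * q + 1 := by omega
        rw [this]; ring
      rw [h1, Nat.mul_div_cancel_left _ (by norm_num)]
      exact Odd.mul ⟨q, rfl⟩ ⟨2 * q, by ring⟩
    rw [H.om_sq, hch.neg_one_pow, neg_smul, one_smul]
  have hmap : ∀ z, ‖z‖ = 1 → ∀ v : ι → ℝ, P z *ᵥ v = v → P (-z) *ᵥ (Om *ᵥ v) = Om *ᵥ v := by
    intro z hz v hv
    rw [hPiff] at hv ⊢
    intro i
    have h1 := hv i
    have h2 : Tt lam mu (G (-z)) i * Om = Om * Tt lam mu (G z) i := by
      unfold Tt
      have : (fun j => G (-z) j i) = fun j => - G z j i := by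
        funext j
        rw [hodd z hz, neg_apply]
      rw [this, cl_neg, neg_mul, neg_mul, mul_assoc, ← hOmmu, ← mul_assoc, ← mul_assoc, hOmlam,
        neg_mul]
    rw [mulVec_mulVec, h2, ← mulVec_mulVec, h1]
  set f : ℂ → ℝ := fun z => (Om *ᵥ s z) ⬝ᵥ s (-z) with hfdef
  have hfc : Continuous f := by
    have h1 : Continuous fun z => Om *ᵥ s z := continuous_const.matrix_mulVec hs
    have h2 : Continuous fun z => s (-z) := hs.comp continuous_neg
    exact h1.dotProduct h2
  have hneg : ∀ z, ‖z‖ = 1 → f z * f (-z) < 0 := by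
    intro z hz
    have hz' : ‖-z‖ = 1 := by rw [norm_neg]; exact hz
    obtain ⟨hz1, hz2, hz3⟩ := hsec z hz.le
    obtain ⟨hw1, hw2, hw3⟩ := hsec (-z) hz'.le
    obtain ⟨c, hc⟩ := hw3 _ (hmap z hz _ hz1)
    obtain ⟨d, hd⟩ := hz3 (Om *ᵥ s (-z)) (by
      have := hmap (-z) hz' _ hw1
      rwa [neg_neg] at this)
    have h1 : Om *ᵥ (Om *ᵥ s z) = (c * d) • s z := by
      rw [hc, mulVec_smul, hd, smul_smul]
    rw [mulVec_mulVec, hOmsq, neg_mulVec, one_mulVec] at h1
    have hcd : c * d = -1 := by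
      have h2 : (c * d + 1) • s z = 0 := by
        rw [add_smul, one_smul, ← h1, neg_add_cancel]
      rcases smul_eq_zero.1 h2 with h | h
      · linarith
      · exact absurd h hz2
    have hpos1 : 0 < s z ⬝ᵥ s z := by
      have h0 : 0 ≤ s z ⬝ᵥ s z := Finset.sum_nonneg fun x _ => mul_self_nonneg (s z x)
      rcases h0.lt_or_eq with h | h
      · exact h
      · exact absurd (dotProduct_self_eq_zero.1 h.symm) hz2
    have hpos2 : 0 < s (-z) ⬝ᵥ s (-z) := by
      have h0 : 0 ≤ s (-z) ⬝ᵥ s (-z) := Finset.sum_nonneg fun x _ => mul_self_nonneg (s (-z) x)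
      rcases h0.lt_or_eq with h | h
      · exact h
      · exact absurd (dotProduct_self_eq_zero.1 h.symm) hw2
    have h3 : f z = c * (s (-z) ⬝ᵥ s (-z)) := by
      rw [hfdef]
      simp only
      rw [hc, smul_dotProduct, smul_eq_mul]
    have h4 : f (-z) = d * (s z ⬝ᵥ s z) := by
      rw [hfdef]
      simp only
      rw [hd, smul_dotProduct, smul_eq_mul, neg_neg]
    rw [h3, h4]
    have h5 : c * (s (-z) ⬝ᵥ s (-z)) * (d * (s z ⬝ᵥ s z)) =
        (c * d) * ((s (-z) ⬝ᵥ s (-z)) * (s z ⬝ᵥ s z)) := by ring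
    rw [h5, hcd]
    have := mul_pos hpos2 hpos1
    linarith
  -- intermediate value theorem along half a circle
  set φ : ℝ → ℝ := fun t => f (Complex.exp (t * Complex.I)) with hφ
  have hφc : Continuous φ := hfc.comp (by fun_prop)
  have hφ0 : φ 0 = f 1 := by simp [hφ]
  have hφπ : φ Real.pi = f (-1) := by simp [hφ, Complex.exp_pi_mul_I]
  have hprod : φ 0 * φ Real.pi < 0 := by
    rw [hφ0, hφπ]
    exact hneg 1 (by simp)
  have hzero : ∃ t, φ t = 0 := by
    rcases le_total (φ 0) (φ Real.pi) with h | h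
    · have h1 : φ 0 ≤ 0 ∧ 0 ≤ φ Real.pi := by constructor <;> nlinarith
      obtain ⟨t, _, ht⟩ := intermediate_value_Icc Real.pi_pos.le hφc.continuousOn ⟨h1.1, h1.2⟩
      exact ⟨t, ht⟩
    · have h1 : φ Real.pi ≤ 0 ∧ 0 ≤ φ 0 := by constructor <;> nlinarith
      obtain ⟨t, _, ht⟩ := intermediate_value_Icc' Real.pi_pos.le hφc.continuousOn ⟨h1.1, h1.2⟩
      exact ⟨t, ht⟩
  obtain ⟨t, ht⟩ := hzero
  have h1 := hneg (Complex.exp (t * Complex.I)) (Complex.norm_exp_ofReal_mul_I t)
  have h2 : f (Complex.exp (t * Complex.I)) = 0 := ht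
  rw [h2, zero_mul] at h1
  exact lt_irrefl _ h1

end Pool.Agent.Lib.MP_7d6803_gt
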