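import Mathlib
import Pool.Agent.Lib.MP_7d6803_gt.Disc

/-!
# Odd maps from the two-sphere to invertible matrices

A continuous odd map from the unit sphere of `ℝ³` to invertible real `N × N` matrices exists only
if `4 ∣ N`.
-/

open Matrix InnerProductSpace

namespace Pool.Agent.Lib.MP_7d6803_gt

/-! ### Gram–Schmidt in families -/

theorem gs_eq {N : ℕ} (f : Fin N → EuclideanSpace ℝ (Fin N)) (n : Fin N) :
    gramSchmidt ℝ f n = f n - ∑ i ∈ Finset.Iio n,
      (inner ℝ (gramSchmidt ℝ f i) (f n) / ‖gramSchmidt ℝ f i‖ ^ 2) • gramSchmidt ℝ f i := by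
  have h := gramSchmidt_def'' ℝ f n
  exact eq_sub_of_add_eq h.symm

theorem continuous_gs {X : Type} [TopologicalSpace X] {N : ℕ}
    (f : X → Fin N → EuclideanSpace ℝ (Fin N)) (hf : ∀ i, Continuous fun x => f x i)
    (hli : ∀ x, LinearIndependent ℝ (f x)) (n : Fin N) :
    Continuous fun x => gramSchmidt ℝ (f x) n := by
  induction n using WellFoundedLT.induction with
  | ind n ih =>
    have h : (fun x => gramSchmidt ℝ (f x) n) = fun x => f x n - ∑ i ∈ Finset.Iio n,
        (inner ℝ (gramSchmidt ℝ (f x) i) (f x n) / ‖gramSchmidt ℝ (f x) i‖ ^ 2) •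
          gramSchmidt ℝ (f x) i := by
      funext x
      exact gs_eq (f x) n
    rw [h]
    refine (hf n).sub (continuous_finsetSum _ fun i hi => ?_)
    have hi' := ih i (Finset.mem_Iio.1 hi)
    refine Continuous.smul (Continuous.div (hi'.inner (hf n)) (hi'.norm.pow 2) fun x => ?_) hi'
    exact pow_ne_zero 2 (norm_ne_zero_iff.2 (gramSchmidt_ne_zero i (hli x)))

theorem gs_neg {N : ℕ} (f : Fin N → EuclideanSpace ℝ (Fin N)) (n : Fin N) :
    gramSchmidt ℝ (fun i => - f i) n = - gramSchmidt ℝ f n := by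
  induction n using WellFoundedLT.induction with
  | ind n ih =>
    rw [gs_eq, gs_eq f n, neg_sub', sub_neg_eq_add]
    rw [sub_eq_add_neg]
    congr 1
    rw [← Finset.sum_neg_distrib]
    refine Finset.sum_congr rfl fun i hi => ?_
    rw [ih i (Finset.mem_Iio.1 hi), inner_neg_neg, norm_neg, smul_neg, neg_neg]

theorem exists_orth {X : Type} [TopologicalSpace X] {N : ℕ} (σ : X → X)
    (g : X → Matrix (Fin N) (Fin N) ℝ) (hg : Continuous g) (hdet : ∀ x, (g x).det ≠ 0)
    (hodd : ∀ x, g (σ x) = - g x) :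
    ∃ h : X → Matrix (Fin N) (Fin N) ℝ, Continuous h ∧ (∀ x, (h x)ᵀ * h x = 1) ∧
      ∀ x, h (σ x) = - h x := by
  let f : X → Fin N → EuclideanSpace ℝ (Fin N) := fun x i => WithLp.toLp 2 (g x i)
  have hf : ∀ i, Continuous fun x => f x i := by
    intro i
    have h1 : Continuous fun x => g x i := by
      refine continuous_pi fun j => hg.matrix_elem i j
    exact (PiLp.continuous_toLp 2 (fun _ : Fin N => ℝ)).comp h1
  have hli : ∀ x, LinearIndependent ℝ (f x) := by
    intro x
    have h1 : LinearIndependent ℝ (g x).row :=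
      linearIndependent_rows_of_det_ne_zero (hdet x)
    have h2 := h1.map' (WithLp.linearEquiv 2 ℝ (Fin N → ℝ)).symm.toLinearMap
      (LinearEquiv.ker _)
    exact h2
  have hfneg : ∀ x, f (σ x) = fun i => - f x i := by
    intro x
    funext i
    simp only [f]
    rw [hodd x]
    rfl
  refine ⟨fun x => Matrix.of fun i j => gramSchmidtNormed ℝ (f x) i j, ?_, ?_, ?_⟩
  · refine continuous_matrix fun i j => ?_
    have h1 := continuous_gs f hf hli i
    have h2 : Continuous fun x => gramSchmidtNormed ℝ (f x) i := by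
      have h3 : Continuous fun x => (‖gramSchmidt ℝ (f x) i‖)⁻¹ :=
        h1.norm.inv₀ fun x => norm_ne_zero_iff.2 (gramSchmidt_ne_zero i (hli x))
      exact h3.smul h1
    exact (EuclideanSpace.proj (𝕜 := ℝ) j).continuous.comp h2
  · intro x
    rw [_root_.mul_eq_one_comm]
    ext i j
    have h1 := (orthonormal_iff_ite.1 (gramSchmidtNormed_orthonormal (𝕜 := ℝ) (hli x))) i j
    rw [mul_apply, one_apply]
    rw [← h1, PiLp.inner_apply]
    refine Finset.sum_congr rfl fun k _ => ?_
    simp [transpose_apply, mul_comm]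
  · intro x
    ext i j
    simp only [of_apply, Matrix.neg_apply, gramSchmidtNormed]
    rw [hfneg x, gs_neg, norm_neg]
    simp

/-! ### The map from the disc to the sphere -/

/-- The unit sphere of `ℝ³`. -/
abbrev S2 := Metric.sphere (0 : EuclideanSpace ℝ (Fin 3)) 1

/-- An unnormalized parametrization. -/
noncomputable def pre (z : ℂ) : EuclideanSpace ℝ (Fin 3) :=
  WithLp.toLp 2 ![z.re, z.im, max 0 (1 - ‖z‖)]

theorem continuous_pre : Continuous pre := by
  unfold pre
  refine (PiLp.continuous_toLp 2 (fun _ : Fin 3 => ℝ)).comp (continuous_pi fun i => ?_)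
  fin_cases i
  · exact Complex.continuous_re
  · exact Complex.continuous_im
  · exact continuous_const.max (continuous_const.sub continuous_norm)

theorem pre_ne_zero (z : ℂ) : pre z ≠ 0 := by
  intro h
  have h0 : z.re = 0 := congrArg (fun v : EuclideanSpace ℝ (Fin 3) => v 0) h
  have h1 : z.im = 0 := congrArg (fun v : EuclideanSpace ℝ (Fin 3) => v 1) h
  have h2 : max 0 (1 - ‖z‖) = 0 := congrArg (fun v : EuclideanSpace ℝ (Fin 3) => v 2) h
  have hz : z = 0 := Complex.ext h0 h1
  rw [hz] at h2
  simp at h2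

theorem pre_neg (z : ℂ) (hz : ‖z‖ = 1) : pre (-z) = - pre z := by
  ext i
  fin_cases i
  · simp [pre]
  · simp [pre]
  · simp [pre, hz]

/-- The map from the plane to the sphere. -/
noncomputable def toS2 (z : ℂ) : S2 :=
  ⟨‖pre z‖⁻¹ • pre z, by
    rw [mem_sphere_zero_iff_norm, norm_smul, norm_inv, norm_norm,
      inv_mul_cancel₀ (norm_ne_zero_iff.2 (pre_ne_zero z))]⟩

theorem continuous_toS2 : Continuous toS2 := by
  refine Continuous.subtype_mk ?_ _
  exact (continuous_pre.norm.inv₀ fun z => norm_ne_zero_iff.2 (pre_ne_zero z)).smul continuous_pre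

theorem toS2_neg (z : ℂ) (hz : ‖z‖ = 1) : toS2 (-z) = - toS2 z := by
  apply Subtype.ext
  simp only [toS2, coe_neg_sphere]
  rw [pre_neg z hz, norm_neg, smul_neg]

/-- A continuous odd map from the two-sphere to invertible matrices of size `N` forces `4 ∣ N`. -/
theorem four_dvd_of_odd (N : ℕ) (g : S2 → Matrix (Fin N) (Fin N) ℝ) (hg : Continuous g)
    (hdet : ∀ x, (g x).det ≠ 0) (hodd : ∀ x, g (-x) = - g x) : 4 ∣ N := by
  by_contra hN
  have hcases : N % 2 = 1 ∨ N % 4 = 2 := by omega
  rcases hcases with h | h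
  · -- odd size: intermediate value theorem for the determinant
    have hNodd : Odd N := Nat.odd_iff.2 h
    set φ : ℝ → ℝ := fun t => (g (toS2 (Complex.exp (t * Complex.I)))).det with hφ
    have hφc : Continuous φ := by
      refine Continuous.matrix_det (hg.comp (continuous_toS2.comp ?_))
      fun_prop
    have h0 : φ Real.pi = - φ 0 := by
      have h1 : Complex.exp ((Real.pi : ℂ) * Complex.I) = -1 := Complex.exp_pi_mul_I
      simp only [hφ, h1, Complex.ofReal_zero, zero_mul, Complex.exp_zero]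
      rw [toS2_neg 1 (by simp), hodd, det_neg, Fintype.card_fin, hNodd.neg_one_pow]
      ring
    have hzero : ∃ t, φ t = 0 := by
      rcases le_total (φ 0) (φ Real.pi) with h | h
      · obtain ⟨t, _, ht⟩ := intermediate_value_Icc Real.pi_pos.le hφc.continuousOn
          (show (0 : ℝ) ∈ Set.Icc (φ 0) (φ Real.pi) from ⟨by linarith, by linarith⟩)
        exact ⟨t, ht⟩
      · obtain ⟨t, _, ht⟩ := intermediate_value_Icc' Real.pi_pos.le hφc.continuousOn
          (show (0 : ℝ) ∈ Set.Icc (φ Real.pi) (φ 0) from ⟨by linarith, by linarith⟩)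
        exact ⟨t, ht⟩
    obtain ⟨t, ht⟩ := hzero
    exact hdet _ ht
  · obtain ⟨k, hk, hk1, hk2⟩ := exists_orth (fun x : S2 => -x) g hg hdet hodd
    set A0 := k (toS2 0) with hA0
    refine disc_contra h (fun z => A0ᵀ * k (toS2 z)) ?_ ?_ ?_ ?_
    · exact continuous_const.matrix_mul (hk.comp continuous_toS2)
    · intro z
      have h1 : A0 * A0ᵀ = 1 := by
        rw [_root_.mul_eq_one_comm]; exact hk1 _
      rw [transpose_mul, transpose_transpose]
      calc (k (toS2 z))ᵀ * A0 * (A0ᵀ * k (toS2 z)) = (k (toS2 z))ᵀ * (A0 * A0ᵀ) * k (toS2 z) := by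
            simp only [mul_assoc]
        _ = 1 := by rw [h1, mul_one, hk1]
    · exact hk1 _
    · intro z hz
      rw [toS2_neg z hz, hk2, mul_neg]

end Pool.Agent.Lib.MP_7d6803_gt
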