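import Mathlib
import Pool.Agent.Lib.MP_7d6803_gt.Cone
import Pool.Agent.Lib.MP_7d6803_gt.Hyp
import Pool.Agent.Lib.MP_7d6803_gt.OddMap

/-!
# Assembly: proper actions of cocompact Kleinian groups force `4 ∣ N`
-/

open Matrix
open scoped ComplexOrder MatrixGroups

namespace Pool.Agent.Lib.MP_7d6803_gt

/-! ### Continuity of the action and the consequence of cocompactness -/

theorem continuous_smul_SL (A : SL(2, ℂ)) : Continuous (fun h : Hyp3 => A • h) := by
  refine Continuous.subtype_mk ?_ _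
  exact (continuous_const.matrix_mul continuous_subtype_val).matrix_mul continuous_const

instance : ContinuousConstSMul PSL2C Hyp3 where
  continuous_const_smul g := by
    obtain ⟨A, rfl⟩ := toPSL_surjective g
    exact continuous_smul_SL A

instance (Γ : Subgroup PSL2C) : ContinuousConstSMul Γ Hyp3 where
  continuous_const_smul g := continuous_const_smul (g : PSL2C)

theorem exists_bound (Γ : Subgroup PSL2C)
    (hΓ : CompactSpace (Quotient (MulAction.orbitRel Γ Hyp3))) :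
    ∃ C : ℝ, 0 < C ∧ ∀ h : Hyp3, ∃ γ : Γ, tr3 (γ⁻¹ • h) ≤ C := by
  let π : Hyp3 → Quotient (MulAction.orbitRel Γ Hyp3) := Quotient.mk _
  have hopen : ∀ n : ℕ, IsOpen (π '' {h : Hyp3 | tr3 h < n}) := by
    intro n
    exact (isOpenMap_quotient_mk'_mul (Γ := Γ) (T := Hyp3)) _
      (isOpen_lt continuous_tr3 continuous_const)
  have hcover : (Set.univ : Set (Quotient (MulAction.orbitRel Γ Hyp3))) ⊆
      ⋃ n : ℕ, π '' {h : Hyp3 | tr3 h < n} := by
    intro q _
    obtain ⟨h, rfl⟩ := Quotient.exists_rep q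
    obtain ⟨n, hn⟩ := exists_nat_gt (tr3 h)
    exact Set.mem_iUnion.2 ⟨n, h, hn, rfl⟩
  obtain ⟨t, ht⟩ := isCompact_univ.elim_finite_subcover _ hopen hcover
  refine ⟨(t.sup id : ℕ) + 1, by positivity, fun h => ?_⟩
  have h1 := ht (Set.mem_univ (π h))
  obtain ⟨n, hn⟩ := Set.mem_iUnion.1 h1
  obtain ⟨hnt, k, hk, hkh⟩ := Set.mem_iUnion.1 hn
  have h2 : (MulAction.orbitRel Γ Hyp3) k h := Quotient.exact hkh
  obtain ⟨γ, hγ⟩ := h2
  refine ⟨γ⁻¹, ?_⟩
  rw [inv_inv]
  change γ • h = k at hγ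
  rw [hγ]
  have h3 : (n : ℝ) ≤ (t.sup id : ℕ) := by
    exact_mod_cast Finset.le_sup (f := id) hnt
  have h4 : tr3 k < n := hk
  linarith

theorem DD_smul' (γ : PSL2C) (h k : Hyp3) : DD (γ • h) (γ • k) = DD h k := by
  obtain ⟨A, rfl⟩ := toPSL_surjective γ
  exact DD_smul A h k

theorem exists_return_bound (Γ : Subgroup PSL2C) (C : ℝ) (F : Set Γ) (hF : F.Finite) :
    ∃ M : ℝ, 0 ≤ M ∧ ∀ γ ∈ F, ∀ w : Hyp3, tr3 w ≤ C → tr3 (γ • w) ≤ M := by
  induction F, hF using Set.Finite.induction_on with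
  | empty => exact ⟨0, le_rfl, fun γ hγ => absurd hγ (Set.notMem_empty γ)⟩
  | @insert a s _ _ ih =>
    obtain ⟨M, h0, h1⟩ := ih
    obtain ⟨A, hA⟩ := toPSL_surjective (a : PSL2C)
    refine ⟨max M (C * nsq A), le_max_of_le_left h0, fun γ hγ w hw => ?_⟩
    rcases hγ with rfl | hγ
    · refine le_trans ?_ (le_max_right _ _)
      have h2 : tr3 (γ • w) = tr3 (A • w) := by
        have : γ • w = A • w := by
          change (γ : PSL2C) • w = A • w
          rw [← hA]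
          rfl
        rw [this]
      rw [h2]
      exact (tr3_smul_le A w).trans (mul_le_mul_of_nonneg_right hw (nsq_nonneg A))
    · exact (h1 γ hγ w hw).trans (le_max_left _ _)

/-! ### The sphere in hyperbolic space -/

/-- The matrix of the point of the sphere of radius `arcosh c` in direction `x`. -/
noncomputable def sphMat (c s : ℝ) (x : EuclideanSpace ℝ (Fin 3)) : Matrix (Fin 2) (Fin 2) ℂ :=
  !![((c + s * x 2 : ℝ) : ℂ), (⟨s * x 0, s * x 1⟩ : ℂ);
     (⟨s * x 0, -(s * x 1)⟩ : ℂ), ((c - s * x 2 : ℝ) : ℂ)]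

theorem sphMat_det (c s : ℝ) (hcs : c ^ 2 - s ^ 2 = 1) (x : EuclideanSpace ℝ (Fin 3))
    (hx : x 0 ^ 2 + x 1 ^ 2 + x 2 ^ 2 = 1) : (sphMat c s x).det = 1 := by
  rw [sphMat, det_fin_two_of]
  apply Complex.ext
  · simp [Complex.mul_re]
    have : s ^ 2 * (x 0 ^ 2 + x 1 ^ 2 + x 2 ^ 2) = s ^ 2 := by rw [hx, mul_one]
    nlinarith
  · simp [Complex.mul_im]
    ring

theorem sphMat_posDef (c s : ℝ) (hc : 0 < c) (hs : 0 ≤ s) (hcs : c ^ 2 - s ^ 2 = 1)
    (x : EuclideanSpace ℝ (Fin 3))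
    (hx : x 0 ^ 2 + x 1 ^ 2 + x 2 ^ 2 = 1) : (sphMat c s x).PosDef := by
  have hx2 : -1 ≤ x 2 := by nlinarith [sq_nonneg (x 0), sq_nonneg (x 1)]
  have hsc : s < c := by nlinarith
  have ha : 0 < c + s * x 2 := by nlinarith
  set a : ℝ := c + s * x 2 with hadef
  set b : ℂ := ⟨s * x 0, s * x 1⟩ with hb
  let M : Matrix (Fin 2) (Fin 2) ℂ := !![(a : ℂ), 0; star b, 1]
  have hM : IsUnit M := by
    rw [Matrix.isUnit_iff_isUnit_det, det_fin_two_of]
    simp only [mul_one, zero_mul, sub_zero]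
    exact isUnit_iff_ne_zero.2 (by exact_mod_cast ha.ne')
  have hpd : (M * Mᴴ).PosDef := Matrix.PosDef.mul_conjTranspose_self M
    (Matrix.vecMul_injective_iff_isUnit.2 hM)
  have ha' : (0 : ℂ) < ((a⁻¹ : ℝ) : ℂ) := by
    have : (0 : ℝ) < a⁻¹ := inv_pos.2 ha
    exact_mod_cast this
  have h2 := hpd.smul ha'
  have hdet : a * (c - s * x 2) = (s * x 0) ^ 2 + (s * x 1) ^ 2 + 1 := by
    have : s ^ 2 * (x 0 ^ 2 + x 1 ^ 2 + x 2 ^ 2) = s ^ 2 := by rw [hx, mul_one]
    rw [hadef]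
    nlinarith
  have m00 : M 0 0 = (a : ℂ) := rfl
  have m01 : M 0 1 = 0 := rfl
  have m10 : M 1 0 = star b := rfl
  have m11 : M 1 1 = 1 := rfl
  have ha0 : (a : ℂ) ≠ 0 := by exact_mod_cast ha.ne'
  have h3 : ((a⁻¹ : ℝ) : ℂ) • (M * Mᴴ) = sphMat c s x := by
    ext i j
    rw [Matrix.smul_apply, Matrix.mul_apply, Fin.sum_univ_two, conjTranspose_apply,
      conjTranspose_apply, smul_eq_mul, Complex.ofReal_inv]
    fin_cases i <;> fin_cases j
    · change (a : ℂ)⁻¹ * (M 0 0 * star (M 0 0) + M 0 1 * star (M 0 1)) = (a : ℂ)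
      rw [m00, m01, star_zero, mul_zero, add_zero]
      have : star (a : ℂ) = (a : ℂ) := Complex.conj_ofReal a
      rw [this, inv_mul_cancel_left₀ ha0]
    · change (a : ℂ)⁻¹ * (M 0 0 * star (M 1 0) + M 0 1 * star (M 1 1)) = b
      rw [m00, m01, m10, zero_mul, add_zero, star_star, inv_mul_cancel_left₀ ha0]
    · change (a : ℂ)⁻¹ * (M 1 0 * star (M 0 0) + M 1 1 * star (M 0 1)) = (⟨s * x 0, -(s * x 1)⟩ : ℂ)
      rw [m00, m01, m10, star_zero, mul_zero, add_zero]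
      have : star (a : ℂ) = (a : ℂ) := Complex.conj_ofReal a
      rw [this, mul_comm (star b), inv_mul_cancel_left₀ ha0]
      rfl
    · change (a : ℂ)⁻¹ * (M 1 0 * star (M 1 0) + M 1 1 * star (M 1 1)) =
        ((c - s * x 2 : ℝ) : ℂ)
      rw [m10, m11, star_star, star_one, mul_one]
      have h5 : star b * b + 1 = ((a * (c - s * x 2) : ℝ) : ℂ) := by
        rw [hdet]
        have h6 : star b * b = ((Complex.normSq b : ℝ) : ℂ) :=
          (Complex.normSq_eq_conj_mul_self (z := b)).symm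
        have h7 : Complex.normSq b = (s * x 0) ^ 2 + (s * x 1) ^ 2 := by
          rw [hb, Complex.normSq_mk]
          ring
        rw [h6, h7]
        push_cast
        ring
      rw [h5, Complex.ofReal_mul, inv_mul_cancel_left₀ ha0]
  rw [← h3]
  exact h2

/-- Points of the sphere. -/
noncomputable def sphPt (c s : ℝ) (hc : 0 < c) (hs : 0 ≤ s) (hcs : c ^ 2 - s ^ 2 = 1) (x : S2) :
    Hyp3 :=
  ⟨sphMat c s x.1, sphMat_posDef c s hc hs hcs x.1 (by
      have h := mem_sphere_zero_iff_norm.1 x.2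
      have h2 := EuclideanSpace.norm_sq_eq x.1
      rw [h, Fin.sum_univ_three] at h2
      simpa using h2.symm),
    sphMat_det c s hcs x.1 (by
      have h := mem_sphere_zero_iff_norm.1 x.2
      have h2 := EuclideanSpace.norm_sq_eq x.1
      rw [h, Fin.sum_univ_three] at h2
      simpa using h2.symm)⟩

theorem continuous_sphPt (c s : ℝ) (hc : 0 < c) (hs : 0 ≤ s) (hcs : c ^ 2 - s ^ 2 = 1) :
    Continuous (sphPt c s hc hs hcs) := by
  refine Continuous.subtype_mk ?_ _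
  have h : ∀ i, Continuous fun x : S2 => x.1 i := fun i =>
    (EuclideanSpace.proj (𝕜 := ℝ) i).continuous.comp continuous_subtype_val
  have h0 := h 0
  have h1 := h 1
  have h2 := h 2
  refine continuous_matrix fun i j => ?_
  have hmk : ∀ f g : S2 → ℝ, Continuous f → Continuous g →
      Continuous fun x => (⟨f x, g x⟩ : ℂ) := by
    intro f g hf hg
    have : (fun x => (⟨f x, g x⟩ : ℂ)) = fun x => Complex.equivRealProdCLM.symm (f x, g x) := by
      funext x
      rfl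
    rw [this]
    exact Complex.equivRealProdCLM.symm.continuous.comp (hf.prodMk hg)
  fin_cases i <;> fin_cases j
  · exact Complex.continuous_ofReal.comp (by fun_prop : Continuous fun x : S2 => c + s * x.1 2)
  · exact hmk _ _ (by fun_prop) (by fun_prop)
  · exact hmk _ _ (by fun_prop) (by fun_prop)
  · exact Complex.continuous_ofReal.comp (by fun_prop : Continuous fun x : S2 => c - s * x.1 2)

theorem tr3_sphPt (c s : ℝ) (hc : 0 < c) (hs : 0 ≤ s) (hcs : c ^ 2 - s ^ 2 = 1) (x : S2) :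
    tr3 (sphPt c s hc hs hcs x) = 2 * c := by
  rw [tr3_eq]
  simp [sphPt, sphMat]
  ring

theorem DD_sphPt (c s : ℝ) (hc : 0 < c) (hs : 0 ≤ s) (hcs : c ^ 2 - s ^ 2 = 1) (x : S2) :
    DD (sphPt c s hc hs hcs x) (sphPt c s hc hs hcs (-x)) = 4 * c ^ 2 - 2 := by
  have h1 : (sphPt c s hc hs hcs (-x)).1.adjugate = (sphPt c s hc hs hcs x).1 := by
    change (sphMat c s (-x).1).adjugate = sphMat c s x.1
    rw [coe_neg_sphere]
    unfold sphMat
    rw [adjugate_fin_two_of]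
    ext i j
    fin_cases i <;> fin_cases j
    · simp
    · apply Complex.ext <;> simp
    · apply Complex.ext <;> simp
    · simp [sub_eq_add_neg]
  unfold DD
  rw [h1, mul_self_eq, trace_sub, trace_smul, trace_eq_tr3, tr3_sphPt]
  simp [trace_one]
  ring

/-! ### The main argument -/

theorem graph_mem_cone {N : ℕ} {Γ : Type*} [Group Γ] (φ : Γ →* ONN N) (γ γ0 : Γ) {τ : ℝ}
    (T : Matrix (Fin N) (Fin N) ℝ)
    (hT : ∀ v : Fin N → ℝ, ∃ w : Fin N → ℝ, (φ γ).act (Sum.elim 0 w) = Sum.elim (T *ᵥ v) v)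
    (hF : ∀ w : Fin N → ℝ, qt τ ((φ (γ0⁻¹ * γ)).act (Sum.elim 0 w)) ≤ 0) (v : Fin N → ℝ) :
    qt τ ((φ γ0)⁻¹.act (Sum.elim (T *ᵥ v) v)) ≤ 0 := by
  obtain ⟨w, hw⟩ := hT v
  rw [← hw, ← mul_act']
  have h := hF w
  rw [map_mul, map_inv] at h
  exact h

theorem four_dvd_of_proper (N : ℕ) (Γ : Subgroup PSL2C) (hΓ : IsCocompactKleinian Γ)
    (φ : Γ →* ONN N) (hφ : IsProperlyDiscontinuous N φ) : 4 ∣ N := by
  classical
  obtain ⟨C, hC, hbound⟩ := exists_bound Γ hΓ.2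
  have hret := finite_return Γ hΓ.1
  -- the graphs
  choose T hT using fun γ : Γ => exists_graph (φ γ)
  -- the finite set of small elements and the cone constant
  obtain ⟨τ, hτ0, hτ1, hcone⟩ := exists_cone_finite φ _ (hret (C + 1))
  -- the finite set of returns
  set FK : Set Γ := {γ : Γ | (((φ γ).act '' Kτ N τ) ∩ Kτ N τ).Nonempty} with hFK
  have hFKfin : FK.Finite := hφ _ (Kτ_subset τ) (isCompact_Kτ hτ1)
  obtain ⟨M, hM0, hM⟩ := exists_return_bound Γ (C + 1) FK hFKfin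
  -- the radius
  set s : ℝ := (C + 1) * M + 1 with hs
  have hs0 : 0 ≤ s := by positivity
  set c : ℝ := Real.sqrt (1 + s ^ 2) with hc
  have hc0 : 0 < c := Real.sqrt_pos.2 (by positivity)
  have hc2 : c ^ 2 = 1 + s ^ 2 := Real.sq_sqrt (by positivity)
  have hcs : c ^ 2 - s ^ 2 = 1 := by linarith
  have hbig : (C + 1) * M < 4 * c ^ 2 - 2 := by
    rw [hc2]
    have h1 : 0 ≤ (C + 1) * M := by positivity
    have h2 : (C + 1) * M = s - 1 := by rw [hs]; ring
    nlinarith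
  let P : S2 → Hyp3 := sphPt c s hc0 hs0 hcs
  have hP : Continuous P := continuous_sphPt c s hc0 hs0 hcs
  have hPtr : ∀ x, tr3 (P x) = 2 * c := tr3_sphPt c s hc0 hs0 hcs
  -- the cutoff function
  let χ : Hyp3 → ℝ := fun h => max 0 (C + 1 - tr3 h)
  have hχc : Continuous χ := continuous_const.max (continuous_const.sub continuous_tr3)
  have hχ0 : ∀ h, 0 ≤ χ h := fun h => le_max_left _ _
  have hχne : ∀ h, χ h ≠ 0 → tr3 h ≤ C + 1 := by
    intro h hne
    by_contra hcon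
    push Not at hcon
    exact hne (max_eq_left (by linarith))
  -- the relevant finite set of group elements
  set R : ℝ := max (C + 1) (2 * c) with hR
  have hSfin := hret R
  set s0 : Finset Γ := hSfin.toFinset with hs0def
  have hs0mem : ∀ (x : S2) (γ : Γ), tr3 (γ⁻¹ • P x) ≤ C + 1 → γ ∈ s0 := by
    intro x γ h
    rw [hs0def, Set.Finite.mem_toFinset]
    refine ⟨γ⁻¹ • P x, h.trans (le_max_left _ _), ?_⟩
    have h1 : (γ : PSL2C) • (γ⁻¹ • P x) = P x := by
      change γ • (γ⁻¹ • P x) = P x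
      rw [smul_inv_smul]
    rw [h1, hPtr]
    exact le_max_right _ _
  let S : S2 → ℝ := fun x => ∑ γ ∈ s0, χ (γ⁻¹ • P x)
  have hχcont : ∀ γ : Γ, Continuous fun x => χ (γ⁻¹ • P x) := fun γ =>
    hχc.comp ((continuous_const_smul γ⁻¹).comp hP)
  have hScont : Continuous S := continuous_finsetSum _ fun γ _ => hχcont γ
  have hSpos : ∀ x, 0 < S x := by
    intro x
    obtain ⟨γ, hγ⟩ := hbound (P x)
    have h1 : 1 ≤ χ (γ⁻¹ • P x) := le_trans (by linarith) (le_max_right _ _)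
    have h2 : χ (γ⁻¹ • P x) ≤ S x := Finset.single_le_sum
      (f := fun γ => χ (γ⁻¹ • P x)) (fun γ _ => hχ0 _) (hs0mem x γ (by linarith))
    linarith
  let wt : S2 → Γ → ℝ := fun x γ => χ (γ⁻¹ • P x) / S x
  let Tx : S2 → Matrix (Fin N) (Fin N) ℝ := fun x => ∑ γ ∈ s0, wt x γ • T γ
  have hTxcont : Continuous Tx := by
    refine continuous_finsetSum _ fun γ _ => ?_
    exact ((hχcont γ).div hScont fun x => (hSpos x).ne').smul continuous_const
  -- the cone property of the average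
  have hTxcone : ∀ (x : S2) (γ0 : Γ), tr3 (γ0⁻¹ • P x) ≤ C + 1 → ∀ v : Fin N → ℝ,
      qt τ ((φ γ0)⁻¹.act (Sum.elim (Tx x *ᵥ v) v)) ≤ 0 := by
    intro x γ0 hγ0 v
    refine cone_average s0 (wt x) T ?_ ?_ _ hτ1.le v ?_
    · intro γ _
      exact div_nonneg (hχ0 _) (hSpos x).le
    · change ∑ γ ∈ s0, χ (γ⁻¹ • P x) / S x = 1
      rw [← Finset.sum_div]
      exact div_self (hSpos x).ne'
    · intro γ _ hne
      have h1 : χ (γ⁻¹ • P x) ≠ 0 := by
        intro h0
        apply hne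
        change χ (γ⁻¹ • P x) / S x = 0
        rw [h0, zero_div]
      have h2 := hχne _ h1
      refine graph_mem_cone φ γ γ0 (T γ) (hT γ) (hcone (γ0⁻¹ * γ) ?_) v
      refine ⟨γ⁻¹ • P x, h2, ?_⟩
      have h3 : ((γ0⁻¹ * γ : Γ) : PSL2C) • (γ⁻¹ • P x) = γ0⁻¹ • P x := by
        change (γ0⁻¹ * γ) • (γ⁻¹ • P x) = γ0⁻¹ • P x
        rw [mul_smul, smul_inv_smul]
      rw [h3]
      exact hγ0
  -- invertibility at large distance
  have hinv : ∀ x y : S2, (C + 1) * M < DD (P x) (P y) → (Tx x - Tx y).det ≠ 0 := by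
    intro x y hxy hdet
    obtain ⟨v, hv0, hv⟩ := Matrix.exists_mulVec_eq_zero_iff.2 hdet
    have heq : Tx x *ᵥ v = Tx y *ᵥ v := by
      rw [sub_mulVec] at hv
      exact sub_eq_zero.1 hv
    obtain ⟨γ0, hγ0⟩ := hbound (P x)
    obtain ⟨δ0, hδ0⟩ := hbound (P y)
    have h1 := hTxcone x γ0 (by linarith) v
    have h2 := hTxcone y δ0 (by linarith) v
    rw [← heq] at h2
    have hw : (Sum.elim (Tx x *ᵥ v) v : Fin N ⊕ Fin N → ℝ) ≠ 0 := by
      intro h0
      apply hv0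
      funext i
      exact congrFun h0 (Sum.inr i)
    have h3 := return_of_common (φ γ0) (φ δ0) hτ1 _ hw h1 h2
    have h4 : γ0⁻¹ * δ0 ∈ FK := by
      rw [hFK]
      change (((φ (γ0⁻¹ * δ0)).act '' Kτ N τ) ∩ Kτ N τ).Nonempty
      rw [map_mul, map_inv]
      exact h3
    have h5 := hM _ h4 (δ0⁻¹ • P y) (by linarith)
    rw [mul_smul, smul_inv_smul] at h5
    have h6 : DD (P x) (P y) = DD (γ0⁻¹ • P x) (γ0⁻¹ • P y) :=
      (DD_smul' ((γ0⁻¹ : Γ) : PSL2C) (P x) (P y)).symm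
    have h7 := DD_le (γ0⁻¹ • P x) (γ0⁻¹ • P y)
    have h8 := tr3_pos (γ0⁻¹ • P x)
    have h9 := tr3_pos (γ0⁻¹ • P y)
    have h10 : tr3 (γ0⁻¹ • P x) * tr3 (γ0⁻¹ • P y) ≤ (C + 1) * M :=
      mul_le_mul (by linarith) h5 h9.le (by linarith)
    linarith
  -- the odd map
  refine four_dvd_of_odd N (fun x => Tx x - Tx (-x)) ?_ ?_ ?_
  · exact hTxcont.sub (hTxcont.comp continuous_neg)
  · intro x
    apply hinv
    rw [DD_sphPt]
    exact hbig
  · intro x
    rw [neg_neg, neg_sub]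

end Pool.Agent.Lib.MP_7d6803_gt
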